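import Mathlib

set_option autoImplicit false

/-!
# The ring of bounded elements and its valuation overrings
-/

namespace Pool.Agent.NIPFields.FI

/-- A multiplicative subgroup (given as a set) of a field `k` and a subfield `K` for which the
induced topology has the properties established in `Tree`. -/
structure Dat (K k : Type*) [Field K] [Field k] [Algebra K k] (T : Set k) : Prop where
  one : (1 : k) ∈ T
  zero : (0 : k) ∉ T
  mul : ∀ x ∈ T, ∀ y ∈ T, x * y ∈ T
  inv : ∀ x ∈ T, x⁻¹ ∈ T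
  ne : ∃ a : K, a ≠ 0 ∧ algebraMap K k a ∉ T
  small : ∃ ε : k, ε ≠ 0 ∧ ∀ a : K, 1 + algebraMap K k a * ε ∈ T
  add : ∃ F : Finset K, ∀ α : k, (∀ f ∈ F, 1 + algebraMap K k f * α ∈ T) →
    ∀ β : k, (∀ f ∈ F, 1 + algebraMap K k f * β ∈ T) → 1 + α + β ∈ T
  good : ∃ X F : Finset K, ∀ y : k, ∃ x ∈ X, algebraMap K k x + y = 0 ∨
    ∀ δ : k, (∀ f ∈ F, 1 + algebraMap K k f * δ ∈ T) →
      algebraMap K k x + y + δ = 0 ∨ 1 + δ / (algebraMap K k x + y) ∈ T

section

variable {K k : Type*} [Field K] [Field k] [Algebra K k] {T : Set k}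

variable (K T) in
/-- Infinitesimals. -/
def Inf : Set k := {ε | ∀ a : K, 1 + algebraMap K k a * ε ∈ T}

variable (D : Dat K k T)

include D

theorem Dat.zero_mem : (0 : k) ∈ Inf K T := by
  intro a
  rw [mul_zero, add_zero]
  exact D.one

omit D in
theorem smul_mem (a : K) {ε : k} (h : ε ∈ Inf K T) : algebraMap K k a * ε ∈ Inf K T := by
  intro b
  have := h (b * a)
  rwa [map_mul, mul_assoc] at this

omit D in
theorem neg_mem {ε : k} (h : ε ∈ Inf K T) : -ε ∈ Inf K T := by
  have := smul_mem (-1) h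
  rwa [map_neg, map_one, neg_one_mul] at this

theorem Dat.add_mem {α β : k} (hα : α ∈ Inf K T) (hβ : β ∈ Inf K T) : α + β ∈ Inf K T := by
  intro a
  obtain ⟨F, hF⟩ := D.add
  have h1 := hF _ (fun f _ => smul_mem a hα f) _ (fun f _ => smul_mem a hβ f)
  rwa [add_assoc, ← mul_add] at h1

omit D in
theorem one_add_mem {ε : k} (h : ε ∈ Inf K T) : 1 + ε ∈ T := by
  have := h 1
  rwa [map_one, one_mul] at this

theorem Dat.one_add_ne {ε : k} (h : ε ∈ Inf K T) : 1 + ε ≠ 0 := by
  intro h0
  exact D.zero (h0 ▸ one_add_mem h)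

theorem Dat.div_mem {α : k} (hα : α ∈ Inf K T) : α / (1 + α) ∈ Inf K T := by
  intro a
  have h1 : 1 + algebraMap K k a * (α / (1 + α)) =
      (1 + algebraMap K k (1 + a) * α) * (1 + α)⁻¹ := by
    have := D.one_add_ne hα
    rw [map_add, map_one]
    field_simp
    ring
  rw [h1]
  exact D.mul _ (hα _) _ (D.inv _ (one_add_mem hα))

theorem Dat.mul_mem' {α β : k} (hα : α ∈ Inf K T) (hβ : β ∈ Inf K T) : 1 - α * β ∈ T := by
  have h1 := D.div_mem hα
  have h2 := D.div_mem hβ
  have e1 := D.one_add_ne hα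
  have e2 := D.one_add_ne hβ
  have h3 : 1 - α * β = (1 + -(α / (1 + α) + β / (1 + β))) *
      ((1 + -(α / (1 + α)))⁻¹ * (1 + -(β / (1 + β)))⁻¹) := by
    have e3 : 1 + -(α / (1 + α)) = (1 + α)⁻¹ := by field_simp; ring
    have e4 : 1 + -(β / (1 + β)) = (1 + β)⁻¹ := by field_simp; ring
    rw [e3, e4, inv_inv, inv_inv]
    field_simp
    ring
  rw [h3]
  exact D.mul _ (one_add_mem (neg_mem (D.add_mem h1 h2))) _
    (D.mul _ (D.inv _ (one_add_mem (neg_mem h1))) _ (D.inv _ (one_add_mem (neg_mem h2))))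

theorem Dat.mul_mem {α β : k} (hα : α ∈ Inf K T) (hβ : β ∈ Inf K T) : α * β ∈ Inf K T := by
  intro a
  have := D.mul_mem' (smul_mem (-a) hα) hβ
  rw [map_neg, neg_mul, neg_mul, sub_neg_eq_add, mul_assoc] at this
  exact this

/-- The ring of bounded elements. -/
def Dat.ring : Subring k where
  carrier := {x | ∀ j ∈ Inf K T, x * j ∈ Inf K T}
  mul_mem' := by
    intro x y hx hy j hj
    rw [mul_assoc]
    exact hx _ (hy _ hj)
  one_mem' := by
    intro j hj
    rwa [one_mul]
  add_mem' := by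
    intro x y hx hy j hj
    rw [add_mul]
    exact D.add_mem (hx _ hj) (hy _ hj)
  zero_mem' := by
    intro j hj
    rw [zero_mul]
    exact D.zero_mem
  neg_mem' := by
    intro x hx j hj
    rw [neg_mul]
    exact neg_mem (hx _ hj)

theorem Dat.mem_ring {x : k} : x ∈ D.ring ↔ ∀ j ∈ Inf K T, x * j ∈ Inf K T := Iff.rfl

theorem Dat.mem_ring_of {x : k} (h : ∀ j ∈ Inf K T, 1 + x * j ∈ T) : x ∈ D.ring := by
  intro j hj a
  have := h _ (smul_mem a hj)
  rwa [mul_left_comm] at this

theorem Dat.algebraMap_mem (a : K) : algebraMap K k a ∈ D.ring := fun _ hj => smul_mem a hj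

theorem Dat.inf_mem {j : k} (hj : j ∈ Inf K T) : j ∈ D.ring := fun _ hj' => D.mul_mem hj hj'

theorem Dat.inf_const {a : K} (h : algebraMap K k a ∈ Inf K T) : a = 0 := by
  by_contra ha
  have := h (-a⁻¹)
  rw [map_neg, neg_mul, ← map_mul, inv_mul_cancel₀ ha, map_one, add_neg_cancel] at this
  exact D.zero this

theorem Dat.exists_inv : ∃ X : Finset K, ∀ y : k, ∃ x ∈ X, algebraMap K k x + y = 0 ∨
    (algebraMap K k x + y)⁻¹ ∈ D.ring := by
  obtain ⟨X, F, h⟩ := D.good
  refine ⟨X, fun y => ?_⟩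
  obtain ⟨x, hx, hxy⟩ := h y
  refine ⟨x, hx, ?_⟩
  rcases hxy with hxy | hxy
  · exact Or.inl hxy
  by_cases h0 : algebraMap K k x + y = 0
  · exact Or.inl h0
  right
  set s := algebraMap K k x + y with hs
  apply D.mem_ring_of
  intro j hj
  rcases hxy j (fun f _ => hj f) with h1 | h1
  · exfalso
    obtain ⟨b, hb, hbT⟩ := D.ne
    have hjs : j = -s := by
      rw [eq_neg_iff_add_eq_zero, add_comm]; exact h1
    have hj0 : j ≠ 0 := by
      rw [hjs]; exact neg_ne_zero.2 h0
    rcases hxy _ (fun f _ => smul_mem (1 - b) hj f) with h2 | h2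
    · rw [hjs, map_sub, map_one] at h2
      have h3 : algebraMap K k b * s = 0 := by linear_combination h2
      rcases mul_eq_zero.1 h3 with h4 | h4
      · exact hb ((map_eq_zero _).1 h4)
      · exact h0 h4
    · apply hbT
      have h3 : 1 + algebraMap K k (1 - b) * j / s = algebraMap K k b := by
        rw [hjs, map_sub, map_one]
        field_simp
        ring
      rwa [h3] at h2
  · rwa [inv_mul_eq_div]

/-- Every element of `k` is a fraction. -/
theorem Dat.exists_frac (y : k) : ∃ a ∈ D.ring, ∃ b ∈ D.ring, b ≠ 0 ∧ y = a / b := by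
  obtain ⟨X, hX⟩ := D.exists_inv
  obtain ⟨x, _, h | h⟩ := hX y
  · refine ⟨algebraMap K k (-x), D.algebraMap_mem _, 1, D.ring.one_mem, one_ne_zero, ?_⟩
    rw [div_one, map_neg, eq_neg_iff_add_eq_zero, add_comm]
    exact h
  · by_cases h0 : algebraMap K k x + y = 0
    · refine ⟨algebraMap K k (-x), D.algebraMap_mem _, 1, D.ring.one_mem, one_ne_zero, ?_⟩
      rw [div_one, map_neg, eq_neg_iff_add_eq_zero, add_comm]
      exact h0
    · refine ⟨1 - algebraMap K k x * (algebraMap K k x + y)⁻¹,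
        D.ring.sub_mem D.ring.one_mem (D.ring.mul_mem (D.algebraMap_mem x) h),
        (algebraMap K k x + y)⁻¹, h, inv_ne_zero h0, ?_⟩
      field_simp
      ring

/-- Infinitesimals are in all maximal ideals. -/
theorem Dat.inf_mem_maximal {j : k} (hj : j ∈ Inf K T) (M : Ideal D.ring) [hM : M.IsMaximal] :
    (⟨j, D.inf_mem hj⟩ : D.ring) ∈ M := by
  by_contra hjM
  obtain ⟨b, hb⟩ := hM.exists_inv hjM
  obtain ⟨i, hi, hbi⟩ := hb
  have h1 : i = 1 + -(b * ⟨j, D.inf_mem hj⟩) := by rw [← hbi]; ring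
  have h2 : (b : k) * j ∈ Inf K T := b.2 j hj
  have h3 : IsUnit i := by
    have h4 := D.one_add_ne (neg_mem h2)
    have h5 : (1 + -((b : k) * j))⁻¹ ∈ D.ring := by
      have h6 : (1 + -((b : k) * j))⁻¹ = 1 - (-((b : k) * j)) / (1 + -((b : k) * j)) := by
        field_simp
        ring
      rw [h6]
      exact D.ring.sub_mem D.ring.one_mem (D.inf_mem (D.div_mem (neg_mem h2)))
    refine IsUnit.of_mul_eq_one ⟨_, h5⟩ (Subtype.ext ?_)
    rw [h1]
    exact mul_inv_cancel₀ h4
  exact hM.ne_top (Ideal.eq_top_of_isUnit_mem _ hi h3)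

/-- There are only finitely many maximal ideals. -/
theorem Dat.finite_maximal : Finite (MaximalSpectrum D.ring) := by
  classical
  by_contra hinf
  rw [not_finite_iff_infinite] at hinf
  obtain ⟨X, hX⟩ := D.exists_inv
  obtain ⟨j, hj0, hj⟩ := D.small
  obtain ⟨S, hS⟩ := Infinite.exists_subset_card_eq (MaximalSpectrum D.ring) X.card
  let e : X ≃ S := Fintype.equivOfCardEq (by rw [Fintype.card_coe, Fintype.card_coe, hS])
  let M : X → Ideal D.ring := fun x => (e x : MaximalSpectrum D.ring).asIdeal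
  have hM : ∀ x, (M x).IsMaximal := fun x => (e x : MaximalSpectrum D.ring).isMaximal
  obtain ⟨r, hr⟩ := Ideal.exists_forall_sub_mem_ideal (I := M)
    (by
      intro x x' hxx'
      have h1 : M x ≠ M x' := by
        intro h
        apply hxx'
        apply e.injective
        apply Subtype.ext
        exact MaximalSpectrum.ext h
      exact Ideal.isCoprime_iff_sup_eq.2 ((hM x).coprime_of_ne (hM x') h1))
    (fun x => -(⟨algebraMap K k (x : K), D.algebraMap_mem _⟩ : D.ring))
  have key : ∀ i : k, ∀ hi : i ∈ Inf K T, ∃ x ∈ X, algebraMap K k x + ((r : k) + i) = 0 := by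
    intro i hi
    obtain ⟨x, hx, h | h⟩ := hX ((r : k) + i)
    · exact ⟨x, hx, h⟩
    · refine ⟨x, hx, ?_⟩
      by_contra h0
      have h1 := hr ⟨x, hx⟩
      have h2 : (⟨algebraMap K k x + ((r : k) + i), D.ring.add_mem (D.algebraMap_mem x)
          (D.ring.add_mem r.2 (D.inf_mem hi))⟩ : D.ring) ∈ M ⟨x, hx⟩ := by
        have h3 := (M ⟨x, hx⟩).add_mem h1 (D.inf_mem_maximal hi (M ⟨x, hx⟩))
        convert h3 using 1
        apply Subtype.ext
        push_cast
        ring
      refine (hM ⟨x, hx⟩).ne_top (Ideal.eq_top_of_isUnit_mem _ h2 ?_)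
      exact IsUnit.of_mul_eq_one ⟨_, h⟩ (Subtype.ext (mul_inv_cancel₀ h0))
  obtain ⟨x, _, hx⟩ := key 0 D.zero_mem
  obtain ⟨x', _, hx'⟩ := key j hj
  have h1 : algebraMap K k (x - x') = j := by
    rw [map_sub]
    linear_combination hx - hx'
  have h2 := D.inf_const (h1 ▸ hj)
  rw [h2, map_zero] at h1
  exact hj0 h1.symm

/-- The localisation at a maximal ideal is a valuation ring. -/
def Dat.val (M : Ideal D.ring) [hM : M.IsMaximal] : ValuationSubring k where
  carrier := {z | ∃ b : D.ring, b ∉ M ∧ (b : k) * z ∈ D.ring}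
  mul_mem' := by
    rintro x y ⟨b, hb, hbx⟩ ⟨b', hb', hby⟩
    refine ⟨b * b', fun h => ((hM.isPrime.mem_or_mem h).elim hb hb'), ?_⟩
    have : ((b * b' : D.ring) : k) * (x * y) = ((b : k) * x) * ((b' : k) * y) := by
      push_cast; ring
    rw [this]
    exact D.ring.mul_mem hbx hby
  one_mem' := ⟨1, fun h => hM.ne_top ((Ideal.eq_top_iff_one _).2 h), by
    rw [mul_one]; exact (1 : D.ring).2⟩
  add_mem' := by
    rintro x y ⟨b, hb, hbx⟩ ⟨b', hb', hby⟩
    refine ⟨b * b', fun h => ((hM.isPrime.mem_or_mem h).elim hb hb'), ?_⟩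
    have : ((b * b' : D.ring) : k) * (x + y) = (b' : k) * ((b : k) * x) + (b : k) * ((b' : k) * y) := by
      push_cast; ring
    rw [this]
    exact D.ring.add_mem (D.ring.mul_mem b'.2 hbx) (D.ring.mul_mem b.2 hby)
  zero_mem' := ⟨1, fun h => hM.ne_top ((Ideal.eq_top_iff_one _).2 h), by
    rw [mul_zero]; exact D.ring.zero_mem⟩
  neg_mem' := by
    rintro x ⟨b, hb, hbx⟩
    refine ⟨b, hb, ?_⟩
    rw [mul_neg]
    exact D.ring.neg_mem hbx
  mem_or_inv_mem' := by
    intro y
    have hone : (1 : D.ring) ∉ M := fun h => hM.ne_top ((Ideal.eq_top_iff_one _).2 h)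
    obtain ⟨X, hX⟩ := D.exists_inv
    obtain ⟨x, _, h | h⟩ := hX y
    · left
      refine ⟨1, hone, ?_⟩
      have h1 : y = algebraMap K k (-x) := by
        rw [map_neg, eq_neg_iff_add_eq_zero, add_comm]; exact h
      rw [h1]
      exact D.ring.mul_mem (1 : D.ring).2 (D.algebraMap_mem _)
    · by_cases h0 : algebraMap K k x + y = 0
      · left
        refine ⟨1, hone, ?_⟩
        have h1 : y = algebraMap K k (-x) := by
          rw [map_neg, eq_neg_iff_add_eq_zero, add_comm]; exact h0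
        rw [h1]
        exact D.ring.mul_mem (1 : D.ring).2 (D.algebraMap_mem _)
      set u : D.ring := ⟨_, h⟩ with hu
      have huk : (u : k) = (algebraMap K k x + y)⁻¹ := rfl
      by_cases huM : u ∈ M
      · right
        -- `y⁻¹ = u / (1 - x u)`
        refine ⟨1 - ⟨algebraMap K k x, D.algebraMap_mem x⟩ * u, fun h1 => ?_, ?_⟩
        · apply hone
          have h2 := M.add_mem h1 (M.mul_mem_left ⟨algebraMap K k x, D.algebraMap_mem x⟩ huM)
          rwa [sub_add_cancel] at h2
        · have h3 : ((1 - ⟨algebraMap K k x, D.algebraMap_mem x⟩ * u : D.ring) : k) = y * u := by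
            push_cast
            rw [huk]
            field_simp
            ring
          rw [h3]
          by_cases hy : y = 0
          · rw [hy, inv_zero, mul_zero]; exact D.ring.zero_mem
          · have h4 : y * (u : k) * y⁻¹ = u := by field_simp
            rw [h4]
            exact u.2
      · left
        refine ⟨u, huM, ?_⟩
        have h3 : (u : k) * y = 1 - algebraMap K k x * u := by
          rw [huk]
          field_simp
          ring
        rw [h3]
        exact D.ring.sub_mem D.ring.one_mem (D.ring.mul_mem (D.algebraMap_mem x) u.2)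

theorem Dat.le_val (M : Ideal D.ring) [hM : M.IsMaximal] {x : k} (hx : x ∈ D.ring) :
    x ∈ D.val M :=
  ⟨1, fun h => hM.ne_top ((Ideal.eq_top_iff_one _).2 h), D.ring.mul_mem (1 : D.ring).2 hx⟩

theorem Dat.val_ne_top (M : Ideal D.ring) [hM : M.IsMaximal] : D.val M ≠ ⊤ := by
  intro htop
  obtain ⟨j, hj0, hj⟩ := D.small
  have h1 : j⁻¹ ∈ D.val M := by rw [htop]; trivial
  obtain ⟨b, hb, hbj⟩ := h1
  apply hb
  have h2 : b = ⟨_, hbj⟩ * ⟨j, D.inf_mem hj⟩ := by
    apply Subtype.ext
    push_cast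
    rw [mul_assoc, inv_mul_cancel₀ hj0, mul_one]
  rw [h2]
  exact M.mul_mem_left _ (D.inf_mem_maximal hj M)

theorem Dat.mem_ring_of_val {x : k} (h : ∀ M : MaximalSpectrum D.ring,
    x ∈ @Dat.val _ _ _ _ _ _ D M.asIdeal M.isMaximal) : x ∈ D.ring := by
  let I : Ideal D.ring :=
    { carrier := {b | (b : k) * x ∈ D.ring}
      add_mem' := by
        intro a b ha hb
        have : ((a + b : D.ring) : k) * x = (a : k) * x + (b : k) * x := by push_cast; ring
        rw [Set.mem_ofPred_eq, this]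
        exact D.ring.add_mem ha hb
      zero_mem' := by
        rw [Set.mem_ofPred_eq]
        have : ((0 : D.ring) : k) * x = 0 := by push_cast; ring
        rw [this]
        exact D.ring.zero_mem
      smul_mem' := by
        intro a b hb
        have : ((a • b : D.ring) : k) * x = (a : k) * ((b : k) * x) := by
          rw [smul_eq_mul]; push_cast; ring
        rw [Set.mem_ofPred_eq, this]
        exact D.ring.mul_mem a.2 hb }
  have hI : I = ⊤ := by
    by_contra hne
    obtain ⟨M, hM, hIM⟩ := Ideal.exists_le_maximal I hne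
    obtain ⟨b, hb, hbx⟩ := h ⟨M, hM⟩
    exact hb (hIM hbx)
  have h1 : (1 : D.ring) ∈ I := by rw [hI]; trivial
  have h2 : ((1 : D.ring) : k) * x ∈ D.ring := h1
  rwa [OneMemClass.coe_one, one_mul] at h2

end

end Pool.Agent.NIPFields.FI
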