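import Mathlib
import Pool.Agent.NIPFields.Approx
import Pool.Agent.NIPFields.FI.Ring

set_option autoImplicit false

/-!
# A valuation for which the powers are not dense
-/

namespace Pool.Agent.NIPFields.FI

section

variable {k : Type*} [Field k]

theorem val_le_of_coarse {V W : ValuationSubring k} (h : V ≤ W) {m z a : k}
    (hm : W.valuation m < 1) (ha : a ≠ 0) (hz : W.valuation z ≤ W.valuation (a * m)) :
    V.valuation z ≤ V.valuation a := by
  by_cases hz0 : z = 0
  · rw [hz0, map_zero]; exact zero_le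
  have h1 : W.valuation (z / a) < 1 := by
    rw [map_div₀]
    have hva : 0 < W.valuation a := zero_lt_iff.2 ((map_ne_zero _).2 ha)
    rw [div_lt_one₀ hva]
    refine lt_of_le_of_lt hz ?_
    rw [map_mul]
    exact mul_lt_of_lt_one_right hva hm
  have h2 : z / a ∈ V := by
    rcases V.mem_or_inv_mem (z / a) with h3 | h3
    · exact h3
    · exfalso
      have h4 := (W.valuation_le_one_iff _).2 (h h3)
      rw [map_inv₀] at h4
      have h5 : 0 < W.valuation (z / a) :=
        zero_lt_iff.2 ((map_ne_zero _).2 (div_ne_zero hz0 ha))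
      exact absurd ((inv_le_one₀ h5).1 h4) (not_le.2 h1)
  have h3 : z = z / a * a := (div_mul_cancel₀ _ ha).symm
  rw [h3, map_mul]
  exact mul_le_of_le_one_left' ((V.valuation_le_one_iff _).2 h2)

theorem exists_tol (V : ValuationSubring k) (y : k) {τ : k} (hτ : τ ≠ 0) :
    ∃ a : k, a ≠ 0 ∧ V.valuation a ≤ 1 ∧ V.valuation (a * y) ≤ V.valuation τ := by
  by_cases hy : y = 0
  · exact ⟨1, one_ne_zero, by rw [map_one], by rw [hy, mul_zero, map_zero]; exact zero_le⟩
  rcases le_total (V.valuation (τ / y)) 1 with h | h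
  · refine ⟨τ / y, div_ne_zero hτ hy, h, ?_⟩
    rw [div_mul_cancel₀ _ hy]
  · refine ⟨1, one_ne_zero, by rw [map_one], ?_⟩
    rw [one_mul]
    rw [map_div₀] at h
    have hvy : 0 < V.valuation y := zero_lt_iff.2 ((map_ne_zero _).2 hy)
    exact (one_le_div₀ hvy).1 h

/-- Approximation for pairwise independent valuation rings. -/
theorem approx_family (S : Finset (ValuationSubring k)) (hS : ∀ W ∈ S, W ≠ ⊤)
    (hind : ∀ W₁ ∈ S, ∀ W₂ ∈ S, W₁ ≠ W₂ → W₁ ⊔ W₂ = ⊤) (y τ : ValuationSubring k → k)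
    (hτ : ∀ W, τ W ≠ 0) : ∃ z : k, ∀ W ∈ S, W.valuation (z - y W) ≤ W.valuation (τ W) := by
  classical
  have key : ∀ W ∈ S, ∃ e : k, W.valuation ((e - 1) * y W) ≤ W.valuation (τ W) ∧
      ∀ W' ∈ S, W' ≠ W → W'.valuation (e * y W) ≤ W'.valuation (τ W') := by
    intro W hW
    obtain ⟨a, ha, ha1, hay⟩ := exists_tol W (y W) (hτ W)
    let S' := S.erase W
    let V : ValuationSubring k → ValuationSubring k := fun W' => if W' ∈ S then W' else W
    have hV : ∀ W', V W' ≠ ⊤ := by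
      intro W'
      by_cases h : W' ∈ S
      · rw [show V W' = W' from if_pos h]; exact hS W' h
      · rw [show V W' = W from if_neg h]; exact hS W hW
    have hVW : V W = W := if_pos hW
    have hVS : ∀ W' ∈ S', V W' = W' := fun W' h => if_pos (Finset.mem_of_mem_erase h)
    let b : ValuationSubring k → k := fun W' =>
      if 1 ≤ W'.valuation (y W / τ W') then y W / τ W' else 1
    have hb1 : ∀ W' : ValuationSubring k, 1 ≤ W'.valuation (b W') := by
      intro W'
      by_cases h : 1 ≤ W'.valuation (y W / τ W')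
      · rw [show b W' = _ from if_pos h]; exact h
      · rw [show b W' = 1 from if_neg h, map_one]
    have hb2 : ∀ W' : ValuationSubring k,
        W'.valuation (y W / τ W') ≤ W'.valuation (b W') := by
      intro W'
      by_cases h : 1 ≤ W'.valuation (y W / τ W')
      · rw [show b W' = _ from if_pos h]
      · rw [show b W' = 1 from if_neg h, map_one]
        exact (not_le.1 h).le
    obtain ⟨z, hz, hz'⟩ := exists_small_large_finset V hV W S' (by
      intro W' hW'
      rw [hVW, hVS W' hW']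
      exact hind W hW W' (Finset.mem_of_mem_erase hW') (Finset.ne_of_mem_erase hW').symm)
      a ha (by rw [hVW]; exact ha1) b (by
      intro W' hW'
      rw [hVS W' hW']
      exact hb1 W')
    rw [hVW] at hz
    have hz1 : W.valuation z < 1 := hz.trans_le ha1
    have hz1' : W.valuation (1 + z) = 1 := W.valuation.map_one_add_of_lt hz1
    have h1z : 1 + z ≠ 0 := by
      intro h0; rw [h0, map_zero] at hz1'; exact zero_ne_one hz1'
    refine ⟨(1 + z)⁻¹, ?_, ?_⟩
    · have h1 : ((1 + z)⁻¹ - 1) * y W = -(z * y W) / (1 + z) := by field_simp; ring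
      rw [h1, map_div₀, hz1', div_one, Valuation.map_neg, map_mul]
      refine le_trans ?_ hay
      rw [map_mul]
      exact mul_le_mul_left hz.le _
    · intro W' hW' hne
      have hmem : W' ∈ S' := Finset.mem_erase.2 ⟨hne, hW'⟩
      have h2 := hz' W' hmem
      rw [hVS W' hmem] at h2
      have h3 : 1 < W'.valuation z := (hb1 W').trans_lt h2
      have h4 : W'.valuation (1 + z) = W'.valuation z :=
        Valuation.map_add_eq_of_lt_right _ (by simpa using h3)
      have h5 := (hb2 W').trans h2.le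
      rw [map_div₀] at h5
      have hvτ : 0 < W'.valuation (τ W') := zero_lt_iff.2 ((map_ne_zero _).2 (hτ W'))
      have hvz : 0 < W'.valuation z := lt_trans zero_lt_one h3
      rw [map_mul, map_inv₀, h4, inv_mul_le_iff₀ hvz]
      exact (div_le_iff₀ hvτ).1 h5
  choose! e he1 he2 using key
  refine ⟨∑ W ∈ S, e W * y W, fun W hW => ?_⟩
  have h1 : ∑ W' ∈ S, e W' * y W' - y W =
      (e W - 1) * y W + ∑ W' ∈ S.erase W, e W' * y W' := by
    rw [← Finset.add_sum_erase S _ hW]
    ring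
  rw [h1]
  refine (W.valuation.map_add _ _).trans (max_le (he1 W hW) ?_)
  refine Valuation.map_sum_le _ fun W' hW' => ?_
  exact he2 W' (Finset.mem_of_mem_erase hW') W hW (Finset.ne_of_mem_erase hW').symm

/-- Continuity of the power map. -/
theorem exists_pow_tol (W : ValuationSubring k) (ℓ : ℕ) (y : k) {a : k} (ha : a ≠ 0) :
    ∃ τ : k, τ ≠ 0 ∧ ∀ z, W.valuation (z - y) ≤ W.valuation τ →
      W.valuation (z ^ ℓ - y ^ ℓ) ≤ W.valuation a := by
  obtain ⟨r, hr0, hr1, hry⟩ : ∃ r : k, r ≠ 0 ∧ 1 ≤ W.valuation r ∧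
      W.valuation y ≤ W.valuation r := by
    rcases le_total 1 (W.valuation y) with h | h
    · refine ⟨y, ?_, h, le_refl _⟩
      rintro rfl
      rw [map_zero] at h
      exact absurd h (not_le.2 zero_lt_one)
    · exact ⟨1, one_ne_zero, by rw [map_one], by rwa [map_one]⟩
  obtain ⟨τ, hτ0, hτ1, hτ⟩ := exists_tol W (r ^ ℓ) ha
  refine ⟨τ, hτ0, fun z hz => ?_⟩
  have hzr : W.valuation z ≤ W.valuation r := by
    have h1 : z = (z - y) + y := by ring
    rw [h1]
    exact (W.valuation.map_add _ _).trans (max_le ((hz.trans hτ1).trans hr1) hry)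
  rw [← geom_sum₂_mul z y ℓ, map_mul]
  have h2 : W.valuation (∑ i ∈ Finset.range ℓ, z ^ i * y ^ (ℓ - 1 - i)) ≤
      W.valuation (r ^ ℓ) := by
    refine Valuation.map_sum_le _ fun i hi => ?_
    rw [Finset.mem_range] at hi
    rw [map_mul, map_pow, map_pow, map_pow]
    calc W.valuation z ^ i * W.valuation y ^ (ℓ - 1 - i)
        ≤ W.valuation r ^ i * W.valuation r ^ (ℓ - 1 - i) := by gcongr
      _ = W.valuation r ^ (ℓ - 1) := by rw [← pow_add]; congr 1; omega
      _ ≤ W.valuation r ^ ℓ := pow_le_pow_right₀ hr1 (Nat.sub_le _ _)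
  calc W.valuation (∑ i ∈ Finset.range ℓ, z ^ i * y ^ (ℓ - 1 - i)) * W.valuation (z - y)
      ≤ W.valuation (r ^ ℓ) * W.valuation τ := mul_le_mul' h2 hz
    _ = W.valuation (τ * r ^ ℓ) := by rw [mul_comm, ← map_mul]
    _ ≤ W.valuation a := hτ

end

section

variable {K k : Type*} [Field K] [Field k] [Algebra K k] {T : Set k} (D : Dat K k T)

include D

theorem Dat.exists_small_mem {W : ValuationSubring k} (hW : W ≠ ⊤)
    (hDW : ∀ x ∈ D.ring, x ∈ W) : ∃ m ∈ D.ring, m ≠ 0 ∧ W.valuation m < 1 := by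
  obtain ⟨e, he⟩ : ∃ e, e ∉ W := by
    by_contra hcon
    push Not at hcon
    exact hW (eq_top_iff.2 fun x _ => hcon x)
  have he0 : e ≠ 0 := by rintro rfl; exact he W.zero_mem
  have hve : 1 < W.valuation e := by
    rw [← not_le, W.valuation_le_one_iff]; exact he
  obtain ⟨p, hp, q, hq, hq0, hpq⟩ := D.exists_frac e⁻¹
  have h1 : p = e⁻¹ * q := by rw [hpq, div_mul_cancel₀ _ hq0]
  refine ⟨p, hp, ?_, ?_⟩
  · rw [h1]; exact mul_ne_zero (inv_ne_zero he0) hq0
  · rw [h1, map_mul]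
    have h2 : W.valuation q ≤ 1 := (W.valuation_le_one_iff _).2 (hDW q hq)
    have h3 : W.valuation e⁻¹ < 1 := by
      rw [map_inv₀]; exact inv_lt_one_of_one_lt₀ hve
    calc W.valuation e⁻¹ * W.valuation q ≤ W.valuation e⁻¹ * 1 := by gcongr
      _ < 1 := by rwa [mul_one]

theorem Dat.approx_power {ℓ : ℕ} (hdense : ∀ W : ValuationSubring k, W ≠ ⊤ → ∀ u : k, u ≠ 0 →
    ∀ a : k, a ≠ 0 → ∃ y, W.valuation (y ^ ℓ - u) ≤ W.valuation a) (n : ℕ) :
    ∀ S : Finset (ValuationSubring k), S.card = n → (∀ W ∈ S, W ≠ ⊤ ∧ ∀ x ∈ D.ring, x ∈ W) →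
      ∀ u : k, u ≠ 0 → ∀ a : k, a ≠ 0 →
      ∃ y, ∀ W ∈ S, W.valuation (y ^ ℓ - u) ≤ W.valuation a := by
  classical
  induction n using Nat.strong_induction_on with
  | _ n ih =>
  intro S hcard hS u hu a ha
  by_cases hdep : ∃ W₁ ∈ S, ∃ W₂ ∈ S, W₁ ≠ W₂ ∧ W₁ ⊔ W₂ ≠ ⊤
  · obtain ⟨W₁, h1, W₂, h2, hne, hW⟩ := hdep
    set W := W₁ ⊔ W₂ with hWdef
    have hDW : ∀ x ∈ D.ring, x ∈ W := fun x hx =>
      (le_sup_left : W₁ ≤ W₁ ⊔ W₂) ((hS W₁ h1).2 x hx)
    obtain ⟨m, hm, hm0, hmW⟩ := D.exists_small_mem hW hDW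
    have hcard' : (insert W ((S.erase W₁).erase W₂)).card < n := by
      have h3 : W₂ ∈ S.erase W₁ := Finset.mem_erase.2 ⟨hne.symm, h2⟩
      have h4 := Finset.card_erase_add_one h3
      have h5 := Finset.card_erase_add_one h1
      have h6 := Finset.card_insert_le W ((S.erase W₁).erase W₂)
      omega
    obtain ⟨y, hy⟩ := ih _ hcard' _ rfl (by
      intro W' hW'
      rcases Finset.mem_insert.1 hW' with rfl | hW'
      · exact ⟨hW, hDW⟩
      · exact hS W' (Finset.mem_of_mem_erase (Finset.mem_of_mem_erase hW'))) u hu (a * m)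
      (mul_ne_zero ha hm0)
    refine ⟨y, fun W' hW' => ?_⟩
    have hyW := hy W (Finset.mem_insert_self _ _)
    by_cases e1 : W' = W₁
    · subst e1
      exact val_le_of_coarse le_sup_left hmW ha hyW
    by_cases e2 : W' = W₂
    · subst e2
      exact val_le_of_coarse le_sup_right hmW ha hyW
    have h3 := hy W' (Finset.mem_insert_of_mem (Finset.mem_erase.2 ⟨e2,
      Finset.mem_erase.2 ⟨e1, hW'⟩⟩))
    refine h3.trans ?_
    rw [map_mul]
    exact mul_le_of_le_one_right' ((W'.valuation_le_one_iff _).2 ((hS W' hW').2 m hm))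
  · push Not at hdep
    have h1 : ∀ W : ValuationSubring k, ∃ y τ : k, W ∈ S → (W.valuation (y ^ ℓ - u) ≤
        W.valuation a ∧ τ ≠ 0 ∧ ∀ z, W.valuation (z - y) ≤ W.valuation τ →
          W.valuation (z ^ ℓ - y ^ ℓ) ≤ W.valuation a) := by
      intro W
      by_cases hW : W ∈ S
      · obtain ⟨y, hy⟩ := hdense W (hS W hW).1 u hu a ha
        obtain ⟨τ, hτ0, hτ⟩ := exists_pow_tol W ℓ y ha
        exact ⟨y, τ, fun _ => ⟨hy, hτ0, hτ⟩⟩
      · exact ⟨0, 0, fun h => absurd h hW⟩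
    choose y τ hyτ using h1
    obtain ⟨z, hz⟩ := approx_family S (fun W hW => (hS W hW).1) hdep y
      (fun W => if W ∈ S then τ W else 1) (by
      intro W
      by_cases hW : W ∈ S
      · rw [if_pos hW]; exact (hyτ W hW).2.1
      · rw [if_neg hW]; exact one_ne_zero)
    refine ⟨z, fun W hW => ?_⟩
    have h2 := hz W hW
    rw [if_pos hW] at h2
    have h3 := (hyτ W hW).2.2 z h2
    have h4 : z ^ ℓ - u = (z ^ ℓ - y W ^ ℓ) + (y W ^ ℓ - u) := by ring
    rw [h4]
    exact (W.valuation.map_add _ _).trans (max_le h3 (hyτ W hW).1)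

/-- There is a valuation ring for which the `ℓ`-th powers are not dense. -/
theorem Dat.exists_nondense {ℓ : ℕ} (hT : ∀ x, x ∈ T ↔ ∃ y, y ≠ 0 ∧ x = y ^ ℓ) :
    ∃ W : ValuationSubring k, W ≠ ⊤ ∧ ∃ u : k, u ≠ 0 ∧ ∃ a : k, a ≠ 0 ∧
      ∀ y, ¬ W.valuation (y ^ ℓ - u) ≤ W.valuation a := by
  classical
  by_contra hcon
  push Not at hcon
  have hfin := D.finite_maximal
  have _ := Fintype.ofFinite (MaximalSpectrum D.ring)
  let V : MaximalSpectrum D.ring → ValuationSubring k := fun M =>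
    @Dat.val _ _ _ _ _ _ D M.asIdeal M.isMaximal
  let S : Finset (ValuationSubring k) := Finset.univ.image V
  obtain ⟨j, hj0, hj⟩ := D.small
  obtain ⟨b, hb, hbT⟩ := D.ne
  set u := algebraMap K k b with hu
  have hu0 : u ≠ 0 := (map_ne_zero _).2 hb
  obtain ⟨y, hy⟩ := D.approx_power (ℓ := ℓ) (fun W hW u hu a ha => by
    obtain ⟨y, hy⟩ := hcon W hW u hu a ha
    exact ⟨y, hy⟩) _ S rfl (by
    intro W hW
    obtain ⟨M, _, rfl⟩ := Finset.mem_image.1 hW
    exact ⟨@Dat.val_ne_top _ _ _ _ _ _ D M.asIdeal M.isMaximal,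
      fun x hx => @Dat.le_val _ _ _ _ _ _ D M.asIdeal M.isMaximal x hx⟩) u hu0 (u * j)
    (mul_ne_zero hu0 hj0)
  have h1 : (y ^ ℓ - u) / (u * j) ∈ D.ring := by
    apply D.mem_ring_of_val
    intro M
    have h2 := hy (V M) (Finset.mem_image_of_mem _ (Finset.mem_univ M))
    rw [← ValuationSubring.valuation_le_one_iff, map_div₀]
    exact div_le_one_of_le₀ h2 zero_le
  have h2 : (y ^ ℓ - u) / u ∈ Inf K T := by
    have h3 := h1 j hj
    have h4 : (y ^ ℓ - u) / (u * j) * j = (y ^ ℓ - u) / u := by field_simp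
    rwa [h4] at h3
  have h3 : 1 + (y ^ ℓ - u) / u = y ^ ℓ / u := by field_simp; ring
  have h4 := one_add_mem h2
  rw [h3, hT] at h4
  obtain ⟨z, hz0, hz⟩ := h4
  apply hbT
  rw [hT]
  have hy0 : y ^ ℓ ≠ 0 := by
    intro h0
    rw [h0, zero_div] at hz
    exact (pow_ne_zero _ hz0) hz.symm
  by_cases hℓ : ℓ = 0
  · subst hℓ
    refine ⟨1, one_ne_zero, ?_⟩
    rw [pow_zero, pow_zero] at hz
    rw [pow_zero]
    field_simp at hz
    exact hz.symm
  · refine ⟨y / z, div_ne_zero ?_ hz0, ?_⟩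
    · rintro rfl
      exact hy0 (zero_pow hℓ)
    · rw [div_pow, ← hz]
      field_simp

end

end Pool.Agent.NIPFields.FI
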