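import Mathlib
import Pool.Agent.NIPFields.RingDef

set_option autoImplicit false

/-!
# A definable neighbourhood of `0` for a valuation for which the powers are not dense
-/

namespace Pool.Agent.NIPFields.FI

open FirstOrder FirstOrder.Language FirstOrder.Ring Set

section

variable {k : Type*} [Field k]

/-- The closure of the group of `ℓ`-th powers. -/
def Cl (W : ValuationSubring k) (ℓ : ℕ) : Set k :=
  {x | x ≠ 0 ∧ ∀ a : k, a ≠ 0 → ∃ y, W.valuation (y ^ ℓ - x) ≤ W.valuation a}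

variable {W : ValuationSubring k} {ℓ : ℕ}

theorem pow_mem_Cl {y : k} (hy : y ≠ 0) : y ^ ℓ ∈ Cl W ℓ :=
  ⟨pow_ne_zero _ hy, fun a _ => ⟨y, by rw [sub_self, map_zero]; exact zero_le⟩⟩

theorem exists_small_elt (hW : W ≠ ⊤) : ∃ m : k, m ≠ 0 ∧ W.valuation m < 1 := by
  obtain ⟨e, he⟩ : ∃ e, e ∉ W := by
    by_contra hcon
    push Not at hcon
    exact hW (eq_top_iff.2 fun x _ => hcon x)
  have he0 : e ≠ 0 := by rintro rfl; exact he W.zero_mem
  have hve : 1 < W.valuation e := by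
    rw [← not_le, W.valuation_le_one_iff]; exact he
  exact ⟨e⁻¹, inv_ne_zero he0, by rw [map_inv₀]; exact inv_lt_one_of_one_lt₀ hve⟩

theorem exists_min (W : ValuationSubring k) (s : Finset k) (hs : ∀ a ∈ s, a ≠ 0) :
    ∃ t : k, t ≠ 0 ∧ ∀ a ∈ s, W.valuation t ≤ W.valuation a := by
  classical
  induction s using Finset.induction_on with
  | empty => exact ⟨1, one_ne_zero, fun a ha => absurd ha (Finset.notMem_empty a)⟩
  | insert b s _ ih =>
    obtain ⟨t, ht0, ht⟩ := ih fun a ha => hs a (Finset.mem_insert_of_mem ha)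
    rcases le_total (W.valuation t) (W.valuation b) with h | h
    · refine ⟨t, ht0, fun a ha => ?_⟩
      rcases Finset.mem_insert.1 ha with rfl | ha
      · exact h
      · exact ht a ha
    · refine ⟨b, hs b (Finset.mem_insert_self _ _), fun a ha => ?_⟩
      rcases Finset.mem_insert.1 ha with rfl | ha
      · exact le_refl _
      · exact h.trans (ht a ha)

theorem exists_min₂ (W : ValuationSubring k) {a b : k} (ha : a ≠ 0) (hb : b ≠ 0) :
    ∃ t : k, t ≠ 0 ∧ W.valuation t ≤ W.valuation a ∧ W.valuation t ≤ W.valuation b := by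
  rcases le_total (W.valuation a) (W.valuation b) with h | h
  · exact ⟨a, ha, le_refl _, h⟩
  · exact ⟨b, hb, h, le_refl _⟩

theorem Cl_close (hW : W ≠ ⊤) {x : k} (hx : x ∈ Cl W ℓ) {a : k} (ha : a ≠ 0) :
    ∃ y, W.valuation (y ^ ℓ - x) ≤ W.valuation a ∧ W.valuation (y ^ ℓ) = W.valuation x ∧
      y ^ ℓ ≠ 0 := by
  obtain ⟨m, hm0, hm⟩ := exists_small_elt hW
  have hvx : 0 < W.valuation x := zero_lt_iff.2 ((map_ne_zero _).2 hx.1)
  obtain ⟨t, ht0, hta, htx⟩ := exists_min₂ W ha (mul_ne_zero hx.1 hm0)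
  obtain ⟨y, hy⟩ := hx.2 t ht0
  have h1 : W.valuation (y ^ ℓ - x) < W.valuation x := by
    refine lt_of_le_of_lt (hy.trans htx) ?_
    rw [map_mul]
    exact mul_lt_of_lt_one_right hvx hm
  have h2 : W.valuation (y ^ ℓ) = W.valuation x := by
    have h3 : y ^ ℓ = x + (y ^ ℓ - x) := by ring
    rw [h3]
    exact Valuation.map_add_eq_of_lt_left _ h1
  refine ⟨y, hy.trans hta, h2, ?_⟩
  intro h0
  rw [h0, map_zero] at h2
  exact hvx.ne h2

theorem Cl_mul (hW : W ≠ ⊤) {x x' : k} (hx : x ∈ Cl W ℓ) (hx' : x' ∈ Cl W ℓ) :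
    x * x' ∈ Cl W ℓ := by
  refine ⟨mul_ne_zero hx.1 hx'.1, fun a ha => ?_⟩
  obtain ⟨y, hy1, hy2, _⟩ := Cl_close hW hx (a := a / x') (div_ne_zero ha hx'.1)
  obtain ⟨y', hy'1, hy'2, _⟩ := Cl_close hW hx' (a := a / x) (div_ne_zero ha hx.1)
  refine ⟨y * y', ?_⟩
  have h1 : (y * y') ^ ℓ - x * x' = y ^ ℓ * (y' ^ ℓ - x') + (y ^ ℓ - x) * x' := by ring
  rw [h1]
  refine (W.valuation.map_add _ _).trans (max_le ?_ ?_)
  · rw [map_mul, hy2]
    calc W.valuation x * W.valuation (y' ^ ℓ - x') ≤ W.valuation x * W.valuation (a / x) := by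
          gcongr
      _ = W.valuation a := by rw [← map_mul, mul_div_cancel₀ _ hx.1]
  · rw [map_mul]
    calc W.valuation (y ^ ℓ - x) * W.valuation x' ≤ W.valuation (a / x') * W.valuation x' := by
          gcongr
      _ = W.valuation a := by rw [← map_mul, div_mul_cancel₀ _ hx'.1]

theorem Cl_inv (hW : W ≠ ⊤) {x : k} (hx : x ∈ Cl W ℓ) : x⁻¹ ∈ Cl W ℓ := by
  refine ⟨inv_ne_zero hx.1, fun a ha => ?_⟩
  obtain ⟨y, hy1, hy2, hy3⟩ := Cl_close hW hx (a := a * x * x)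
    (mul_ne_zero (mul_ne_zero ha hx.1) hx.1)
  refine ⟨y⁻¹, ?_⟩
  have h1 : y⁻¹ ^ ℓ - x⁻¹ = -((y ^ ℓ - x) * x⁻¹ * (y ^ ℓ)⁻¹) := by
    rw [inv_pow]
    have := hx.1
    field_simp
    ring
  rw [h1, Valuation.map_neg, map_mul, map_mul, map_inv₀, map_inv₀, hy2]
  have hvx : W.valuation x ≠ 0 := (map_ne_zero _).2 hx.1
  calc W.valuation (y ^ ℓ - x) * (W.valuation x)⁻¹ * (W.valuation x)⁻¹
      ≤ W.valuation (a * x * x) * (W.valuation x)⁻¹ * (W.valuation x)⁻¹ := by gcongr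
    _ = W.valuation a := by
        rw [map_mul, map_mul]
        field_simp

/-- The closure is open if the index is finite. -/
theorem Cl_open (hW : W ≠ ⊤) {R : Finset k} (hR : ∀ x : k, x ≠ 0 → ∃ r ∈ R, ∃ y, y ≠ 0 ∧
    x = r * y ^ ℓ) : ∃ t : k, t ≠ 0 ∧ ∀ x, W.valuation x ≤ W.valuation t → 1 + x ∈ Cl W ℓ := by
  classical
  obtain ⟨m, hm0, hm⟩ := exists_small_elt hW
  have h1 : ∀ r : k, ∃ a : k, a ≠ 0 ∧ (r ≠ 0 → r ∉ Cl W ℓ →
      ∀ y, ¬ W.valuation (y ^ ℓ - r) ≤ W.valuation (a * r)) := by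
    intro r
    by_cases hr : r ≠ 0 ∧ r ∉ Cl W ℓ
    · have h2 := hr.2
      unfold Cl at h2
      rw [mem_ofPred_eq, not_and] at h2
      have h3 := h2 hr.1
      push Not at h3
      obtain ⟨a, ha, h4⟩ := h3
      refine ⟨a / r, div_ne_zero ha hr.1, fun _ _ y => ?_⟩
      rw [div_mul_cancel₀ _ hr.1]
      exact not_le.2 (h4 y)
    · exact ⟨1, one_ne_zero, fun e1 e2 => absurd ⟨e1, e2⟩ hr⟩
  choose a ha0 ha using h1
  obtain ⟨t, ht0, ht⟩ := exists_min W (insert m (R.image a)) (by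
    intro b hb
    rcases Finset.mem_insert.1 hb with rfl | hb
    · exact hm0
    · obtain ⟨r, _, rfl⟩ := Finset.mem_image.1 hb
      exact ha0 r)
  refine ⟨t, ht0, fun x hx => ?_⟩
  have hx1 : W.valuation x < 1 := (hx.trans (ht m (Finset.mem_insert_self _ _))).trans_lt hm
  have hv1 : W.valuation (1 + x) = 1 := W.valuation.map_one_add_of_lt hx1
  have h1x : 1 + x ≠ 0 := by
    intro h0; rw [h0, map_zero] at hv1; exact zero_ne_one hv1
  obtain ⟨r, hr, y, hy0, hxy⟩ := hR (1 + x) h1x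
  have hr0 : r ≠ 0 := by
    rintro rfl; rw [zero_mul] at hxy; exact h1x hxy
  by_cases hrC : r ∈ Cl W ℓ
  · rw [hxy]
    exact Cl_mul hW hrC (pow_mem_Cl hy0)
  · exfalso
    apply ha r hr0 hrC y⁻¹
    have h2 : y⁻¹ ^ ℓ - r = -(x * y⁻¹ ^ ℓ) := by
      have h3 : r = (1 + x) * y⁻¹ ^ ℓ := by
        rw [hxy, mul_assoc, ← mul_pow, mul_inv_cancel₀ hy0, one_pow, mul_one]
      rw [h3]
      ring
    have h3 : W.valuation (y⁻¹ ^ ℓ) = W.valuation r := by
      have h4 : r = (1 + x) * y⁻¹ ^ ℓ := by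
        rw [hxy, mul_assoc, ← mul_pow, mul_inv_cancel₀ hy0, one_pow, mul_one]
      rw [h4, map_mul, hv1, one_mul]
    rw [h2, Valuation.map_neg, map_mul, h3, map_mul]
    exact mul_le_mul_left (hx.trans (ht (a r) (Finset.mem_insert_of_mem
      (Finset.mem_image_of_mem _ hr)))) _

end

section

variable {k : Type*} [Field k] [CompatibleRing k]

theorem def_coset (r : k) (ℓ : ℕ) :
    (univ : Set k).Definable₁ Language.ring {x | ∃ y, y ≠ 0 ∧ x = r * y ^ ℓ} := by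
  have e1 : (univ : Set k).Definable Language.ring
      {u : Fin 1 ⊕ Fin 1 → k | u (Sum.inr 0) = 0} := (dfun_var _).ofPred_eq dfun_zero
  have e2 : (univ : Set k).Definable Language.ring
      {u : Fin 1 ⊕ Fin 1 → k | u (Sum.inl 0) = r * u (Sum.inr 0) ^ ℓ} :=
    (dfun_var _).ofPred_eq (dfun_mul (dfun_const (mem_univ r)) (dfun_pow (dfun_var _) ℓ))
  have h := (e1.compl.inter e2).exists_of_finite
  unfold Definable₁
  convert h using 1
  ext v
  constructor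
  · rintro ⟨w, hw1, hw2⟩
    exact ⟨fun _ => w, hw1, hw2⟩
  · rintro ⟨u, hu1, hu2⟩
    exact ⟨u 0, hu1, hu2⟩

theorem def_Cl {W : ValuationSubring k} (hW : W ≠ ⊤) {ℓ : ℕ} {R : Finset k}
    (hR : ∀ x : k, x ≠ 0 → ∃ r ∈ R, ∃ y, y ≠ 0 ∧ x = r * y ^ ℓ) :
    (univ : Set k).Definable₁ Language.ring (Cl W ℓ) := by
  classical
  have h1 : Cl W ℓ = ⋃ r ∈ R.filter (fun r => r ∈ Cl W ℓ), {x | ∃ y, y ≠ 0 ∧ x = r * y ^ ℓ} := by
    ext x
    simp only [mem_iUnion, Finset.mem_filter, mem_ofPred_eq, exists_prop]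
    constructor
    · intro hx
      obtain ⟨r, hr, y, hy, hxy⟩ := hR x hx.1
      refine ⟨r, ⟨hr, ?_⟩, y, hy, hxy⟩
      have h2 : r = x * y⁻¹ ^ ℓ := by
        rw [hxy, mul_assoc, ← mul_pow, mul_inv_cancel₀ hy, one_pow, mul_one]
      rw [h2]
      exact Cl_mul hW hx (pow_mem_Cl (inv_ne_zero hy))
    · rintro ⟨r, ⟨_, hr⟩, y, hy, rfl⟩
      exact Cl_mul hW hr (pow_mem_Cl hy)
  unfold Definable₁
  have h2 : {x : Fin 1 → k | x 0 ∈ Cl W ℓ} = ⋃ r ∈ R.filter (fun r => r ∈ Cl W ℓ),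
      {x : Fin 1 → k | x 0 ∈ {x | ∃ y, y ≠ 0 ∧ x = r * y ^ ℓ}} := by
    ext x
    have h3 := Set.ext_iff.1 h1 (x 0)
    simp only [mem_iUnion] at h3 ⊢
    exact h3
  rw [h2]
  exact definable_biUnion_finset (fun r => def_coset r ℓ) _

/-- A definable bounded neighbourhood of `0`. -/
theorem exists_nbhd_of_nondense {W : ValuationSubring k} (hW : W ≠ ⊤) {ℓ : ℕ} {R : Finset k}
    (hR : ∀ x : k, x ≠ 0 → ∃ r ∈ R, ∃ y, y ≠ 0 ∧ x = r * y ^ ℓ)
    (hnd : ∃ u : k, u ≠ 0 ∧ ∃ a : k, a ≠ 0 ∧ ∀ y, ¬ W.valuation (y ^ ℓ - u) ≤ W.valuation a) :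
    ∃ U : Set k, (univ : Set k).Definable₁ Language.ring U ∧
      (∃ s : k, s ≠ 0 ∧ ∀ x ∈ U, W.valuation x ≤ W.valuation s) ∧
      (∃ t : k, t ≠ 0 ∧ ∀ x, W.valuation x ≤ W.valuation t → x ∈ U) := by
  obtain ⟨b, hb0, hb⟩ : ∃ b : k, b ≠ 0 ∧ b ∉ Cl W ℓ := by
    obtain ⟨u, hu, a, ha, h⟩ := hnd
    refine ⟨u, hu, fun hC => ?_⟩
    obtain ⟨y, hy⟩ := hC.2 a ha
    exact h y hy
  obtain ⟨t, ht0, ht⟩ := Cl_open hW hR
  have hC := def_Cl hW hR
  refine ⟨{z | 1 + z ∈ Cl W ℓ ∧ 1 + b * z ∈ Cl W ℓ}, ?_, ?_, ?_⟩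
  · have e1 : (univ : Set k).Definable Language.ring {v : Fin 1 → k | 1 + v 0 ∈ Cl W ℓ} :=
      def_mem hC (dfun_add dfun_one (dfun_var 0))
    have e2 : (univ : Set k).Definable Language.ring {v : Fin 1 → k | 1 + b * v 0 ∈ Cl W ℓ} :=
      def_mem hC (dfun_add dfun_one (dfun_mul (dfun_const (mem_univ b)) (dfun_var 0)))
    exact e1.inter e2
  · obtain ⟨s', hs'0, hs't, hs'b⟩ := exists_min₂ W ht0 (mul_ne_zero hb0 ht0)
    refine ⟨s'⁻¹, inv_ne_zero hs'0, fun z hz => ?_⟩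
    by_contra hlt
    rw [not_le] at hlt
    have hz0 : z ≠ 0 := by
      rintro rfl
      rw [map_zero] at hlt
      exact absurd hlt (by simp)
    have hvs : 0 < W.valuation s' := zero_lt_iff.2 ((map_ne_zero _).2 hs'0)
    have hvz : 0 < W.valuation z := zero_lt_iff.2 ((map_ne_zero _).2 hz0)
    have hzs : W.valuation z⁻¹ ≤ W.valuation s' := by
      rw [map_inv₀] at hlt ⊢
      exact (inv_lt_of_inv_lt₀ hvs hlt).le
    have h1 : z ∈ Cl W ℓ := by
      have h2 := ht z⁻¹ (hzs.trans hs't)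
      have h3 : z = (1 + z) * (1 + z⁻¹)⁻¹ := by
        have h4 := h2.1
        have h5 : (1 + z⁻¹) * z = 1 + z := by field_simp; ring
        rw [eq_mul_inv_iff_mul_eq₀ h4, mul_comm]
        exact h5
      rw [h3]
      exact Cl_mul hW hz.1 (Cl_inv hW h2)
    have h2 : b * z ∈ Cl W ℓ := by
      have h2 := ht (b * z)⁻¹ (by
        rw [mul_inv, map_mul]
        calc W.valuation b⁻¹ * W.valuation z⁻¹ ≤ W.valuation b⁻¹ * W.valuation (b * t) := by
              gcongr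
              exact hzs.trans hs'b
          _ = W.valuation t := by rw [← map_mul, inv_mul_cancel_left₀ hb0])
      have h3 : b * z = (1 + b * z) * (1 + (b * z)⁻¹)⁻¹ := by
        have h4 := h2.1
        have h5 : (1 + (b * z)⁻¹) * (b * z) = 1 + b * z := by field_simp; ring
        rw [eq_mul_inv_iff_mul_eq₀ h4, mul_comm]
        exact h5
      rw [h3]
      exact Cl_mul hW hz.2 (Cl_inv hW h2)
    apply hb
    have h3 : b = b * z * z⁻¹ := by field_simp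
    rw [h3]
    exact Cl_mul hW h2 (Cl_inv hW h1)
  · obtain ⟨t', ht'0, ht't, ht'b⟩ := exists_min₂ W ht0 (div_ne_zero ht0 hb0)
    refine ⟨t', ht'0, fun x hx => ⟨ht x (hx.trans ht't), ht (b * x) ?_⟩⟩
    rw [map_mul]
    calc W.valuation b * W.valuation x ≤ W.valuation b * W.valuation (t / b) := by
          gcongr
          exact hx.trans ht'b
      _ = W.valuation t := by rw [← map_mul, mul_div_cancel₀ _ hb0]

end

end Pool.Agent.NIPFields.FI
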