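import Mathlib
import Pool.Agent.NIPFields.Final2

set_option autoImplicit false

/-!
# Transfer of definable valuation rings from an ultrapower
-/

namespace Pool.Agent.NIPFields.FI

open FirstOrder FirstOrder.Language FirstOrder.Ring Set Filter IsLocalRing

universe u v

section

variable {I : Type u} {U : Ultrafilter I} {E : Type u} [Field E]

theorem eventually_forall_of {l : Filter I} {P : I → E → Prop}
    (h : ∀ g : I → E, ∀ᶠ t in l, P t (g t)) : ∀ᶠ t in l, ∀ x, P t x := by
  classical
  filter_upwards [h fun t => if hx : ∃ x, ¬ P t x then hx.choose else 0] with t ht x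
  by_contra hx
  have hex : ∃ x, ¬ P t x := ⟨x, hx⟩
  rw [dif_pos hex] at ht
  exact hex.choose_spec ht

theorem exists_valuation_of_germ {S : I → Set E} (O : ValuationSubring (Germ (U : Filter I) E))
    (hO : O ≠ ⊤) (hS : ∀ g : I → E, (↑g : Germ (U : Filter I) E) ∈ O ↔
      ∀ᶠ t in (U : Filter I), g t ∈ S t) :
    ∃ t, ∃ O' : ValuationSubring E, O' ≠ ⊤ ∧ (O' : Set E) = S t := by
  have h0 : ∀ᶠ t in (U : Filter I), (0 : E) ∈ S t := (hS 0).1 (by
    rw [Germ.coe_zero]; exact O.zero_mem)
  have h1 : ∀ᶠ t in (U : Filter I), (1 : E) ∈ S t := (hS 1).1 (by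
    rw [Germ.coe_one]; exact O.one_mem)
  have h2 : ∀ᶠ t in (U : Filter I), ∀ x y, x ∈ S t → y ∈ S t → x + y ∈ S t := by
    refine eventually_forall_of fun g => eventually_forall_of fun g' => ?_
    by_cases e1 : ∀ᶠ t in (U : Filter I), g t ∈ S t
    · by_cases e2 : ∀ᶠ t in (U : Filter I), g' t ∈ S t
      · have e3 := (hS (g + g')).1 (by
          rw [Germ.coe_add]; exact O.add_mem _ _ ((hS g).2 e1) ((hS g').2 e2))
        filter_upwards [e3] with t ht _ _
        exact ht
      · rw [← Ultrafilter.eventually_not] at e2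
        filter_upwards [e2] with t ht _ h
        exact absurd h ht
    · rw [← Ultrafilter.eventually_not] at e1
      filter_upwards [e1] with t ht h
      exact absurd h ht
  have h3 : ∀ᶠ t in (U : Filter I), ∀ x y, x ∈ S t → y ∈ S t → x * y ∈ S t := by
    refine eventually_forall_of fun g => eventually_forall_of fun g' => ?_
    by_cases e1 : ∀ᶠ t in (U : Filter I), g t ∈ S t
    · by_cases e2 : ∀ᶠ t in (U : Filter I), g' t ∈ S t
      · have e3 := (hS (g * g')).1 (by
          rw [Germ.coe_mul]; exact O.mul_mem _ _ ((hS g).2 e1) ((hS g').2 e2))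
        filter_upwards [e3] with t ht _ _
        exact ht
      · rw [← Ultrafilter.eventually_not] at e2
        filter_upwards [e2] with t ht _ h
        exact absurd h ht
    · rw [← Ultrafilter.eventually_not] at e1
      filter_upwards [e1] with t ht h
      exact absurd h ht
  have h4 : ∀ᶠ t in (U : Filter I), ∀ x, x ∈ S t → -x ∈ S t := by
    refine eventually_forall_of fun g => ?_
    by_cases e1 : ∀ᶠ t in (U : Filter I), g t ∈ S t
    · have e3 := (hS (-g)).1 (by
        rw [Germ.coe_neg]; exact O.neg_mem _ ((hS g).2 e1))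
      filter_upwards [e3] with t ht _
      exact ht
    · rw [← Ultrafilter.eventually_not] at e1
      filter_upwards [e1] with t ht h
      exact absurd h ht
  have h5 : ∀ᶠ t in (U : Filter I), ∀ x, x ∈ S t ∨ x⁻¹ ∈ S t := by
    refine eventually_forall_of fun g => ?_
    rw [Ultrafilter.eventually_or]
    rcases O.mem_or_inv_mem (↑g : Germ (U : Filter I) E) with h | h
    · exact Or.inl ((hS g).1 h)
    · right
      rw [← Germ.coe_inv] at h
      exact (hS g⁻¹).1 h
  obtain ⟨w, hw⟩ : ∃ w, w ∉ O := by
    by_contra hcon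
    push Not at hcon
    exact hO (eq_top_iff.2 fun x _ => hcon x)
  have h6 : ∀ᶠ t in (U : Filter I), ∃ x, x ∉ S t := by
    induction w using Germ.inductionOn with | _ g
    rw [hS, ← Ultrafilter.eventually_not] at hw
    filter_upwards [hw] with t ht
    exact ⟨g t, ht⟩
  obtain ⟨t, e0, e1, e2, e3, e4, e5, e6⟩ :=
    (h0.and (h1.and (h2.and (h3.and (h4.and (h5.and h6)))))).exists
  let O' : ValuationSubring E :=
    { carrier := S t
      mul_mem' := fun {x y} hx hy => e3 x y hx hy
      one_mem' := e1
      add_mem' := fun {x y} hx hy => e2 x y hx hy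
      zero_mem' := e0
      neg_mem' := fun {x} hx => e4 x hx
      mem_or_inv_mem' := e5 }
  refine ⟨t, O', fun htop => ?_, rfl⟩
  obtain ⟨x, hx⟩ := e6
  have : x ∈ O' := by rw [htop]; trivial
  exact hx this

variable [CompatibleRing E]

/-- If an ultrapower has a non-trivial definable valuation ring, so has the field. -/
theorem exists_definable_of_germ (O : ValuationSubring (Germ (U : Filter I) E)) (hO : O ≠ ⊤)
    (hdef : @Set.Definable₁ (Germ (U : Filter I) E) univ Language.ring
      (germCompat U E).toStructure {x | x ∈ O}) :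
    ∃ O' : ValuationSubring E, O' ≠ ⊤ ∧
      (univ : Set E).Definable₁ Language.ring {x | x ∈ O'} := by
  obtain ⟨p, ψ, c, hc⟩ := @exists_formula_of_definable _ _ (germCompat U E) _ hdef
  obtain ⟨f, hf⟩ := exists_rep c
  subst hf
  let S : I → Set E := fun t => {x | ψ.Realize (Sum.elim (fun _ => x) (fun i => f i t))}
  obtain ⟨t, O', hO', hS⟩ := exists_valuation_of_germ (S := S) O hO (by
    intro g
    have h1 := hc (↑g : Germ (U : Filter I) E)
    have h2 := germ_realize (U := U) (E := E) ψ (Sum.elim (fun _ : Fin 1 => g) f)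
    have h3 : (fun x => (↑((Sum.elim (fun _ : Fin 1 => g) f) x) : Germ (U : Filter I) E)) =
        Sum.elim (fun _ : Fin 1 => (↑g : Germ (U : Filter I) E))
          (fun i => (↑(f i) : Germ (U : Filter I) E)) := by
      funext x
      rcases x with x | x <;> rfl
    rw [h3] at h2
    refine h1.trans (h2.trans (eventually_congr (Eventually.of_forall fun t => ?_)))
    have h4 : (fun x => (Sum.elim (fun _ : Fin 1 => g) f) x t) =
        Sum.elim (fun _ : Fin 1 => g t) (fun i => f i t) := by
      funext x
      rcases x with x | x <;> rfl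
    rw [h4]
    exact Iff.rfl)
  refine ⟨O', hO', ?_⟩
  have h5 : {x | x ∈ O'} = S t := hS
  rw [h5]
  unfold Set.Definable₁
  rw [Set.definable_iff_exists_formula_sum]
  refine ⟨ψ.relabel (Sum.elim (fun i => Sum.inr i)
    (fun i => Sum.inl (⟨f i t, mem_univ _⟩ : (univ : Set E)))), ?_⟩
  ext x
  rw [mem_ofPred_eq, mem_ofPred_eq, mem_ofPred_eq, Formula.realize_relabel]
  have h6 : (Sum.elim (fun _ : Fin 1 => x 0) (fun i => f i t)) =
      (Sum.elim (fun (a : (univ : Set E)) => (a : E)) x) ∘
        (Sum.elim (fun i => Sum.inr i)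
          (fun i => Sum.inl (⟨f i t, mem_univ _⟩ : (univ : Set E)))) := by
    funext y
    rcases y with y | y
    · have : y = 0 := Subsingleton.elim _ _
      subst this
      rfl
    · rfl
  rw [h6]

end

/-- In a field of characteristic `p`, NIP, a non-trivial valuation ring with definable topology
gives a non-trivial definable valuation ring, if not every element is an `ℓ`-th power. -/
theorem exists_definable_of_nbhd {L : Type u} [Field L] [CompatibleRing L] (hL : NIP L) {p : ℕ}
    [hp : Fact p.Prime] [CharP L p] {A : ValuationSubring L} (hA : A ≠ ⊤) {U : Set L}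
    (hU : (univ : Set L).Definable₁ Language.ring U) {s t : L} (hs0 : s ≠ 0)
    (hs : ∀ x ∈ U, A.valuation x ≤ A.valuation s) (ht0 : t ≠ 0)
    (ht : ∀ x, A.valuation x ≤ A.valuation t → x ∈ U) {ℓ : ℕ} (hℓ : (ℓ : L) ≠ 0)
    (hnp : ∃ a : L, a ≠ 0 ∧ ∀ y, a ≠ y ^ ℓ) :
    ∃ O' : ValuationSubring L, O' ≠ ⊤ ∧
      (univ : Set L).Definable₁ Language.ring {x | x ∈ O'} := by
  obtain ⟨c, hc0, hc⟩ := hL.open_powers (p := p) hA hU hs0 hs ht0 ht hℓ
  obtain ⟨e, he⟩ : ∃ e, e ∉ A := by
    by_contra hcon
    push Not at hcon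
    exact hA (eq_top_iff.2 fun x _ => hcon x)
  have hVE : VE (A : Set L) (1 : L) :=
    { zero := A.zero_mem
      c0 := one_ne_zero
      add := fun x hx y hy => ⟨x + y, A.add_mem _ _ hx hy, (one_mul _).symm⟩
      mul := fun x hx y hy => ⟨x * y, A.mul_mem _ _ hx hy, (one_mul _).symm⟩
      inv := fun x hx => ⟨x⁻¹, (A.mem_or_inv_mem x).resolve_left hx, (one_mul _).symm⟩
      ne := ⟨e, he⟩ }
  have hcompat : ∃ O : ValuationSubring L, Compat ℓ O := by
    obtain ⟨O, hO1, hO2⟩ := hVE.exists_valuationSubring (p := p) hℓ hc0 (by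
      intro z hz
      apply hc
      rw [map_mul]
      calc A.valuation c * A.valuation z ≤ A.valuation c * 1 := by
            have : A.valuation z ≤ 1 := (A.valuation_le_one_iff _).2 hz
            gcongr
        _ = A.valuation c := mul_one _)
    exact ⟨O, hO1, hO2⟩
  exact exists_definable_valuationSubring (p := p) hℓ hcompat hnp

end Pool.Agent.NIPFields.FI
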