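import Mathlib

set_option autoImplicit false

/-!
# Finite colourings of a field by its multiplicative group

`c : K →*₀ Q` is a homomorphism of an infinite field to a finite group with zero.
-/

namespace Pool.Agent.NIPFields.FI

open Finset

variable {K : Type*} [Field K] {Q : Type*} [GroupWithZero Q] (c : K →*₀ Q)

/-- Basic neighbourhoods of `0`. -/
def Nb (F : Finset K) : Set K := {δ | ∀ f ∈ F, c (1 + f * δ) = 1}

variable {c}

theorem Nb.anti {F F' : Finset K} (h : F ⊆ F') {δ : K} (hδ : δ ∈ Nb c F') : δ ∈ Nb c F :=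
  fun f hf => hδ f (h hf)

theorem Nb.zero {F : Finset K} : (0 : K) ∈ Nb c F := by
  intro f _
  rw [mul_zero, add_zero, map_one]

/-- Weights all of whose partial sums are non-zero. -/
theorem exists_weights [Infinite K] {ι : Type*} [DecidableEq ι] (s : Finset ι) :
    ∃ t : ι → K, ∀ S ⊆ s, S.Nonempty → ∑ i ∈ S, t i ≠ 0 := by
  classical
  induction s using Finset.induction_on with
  | empty =>
    refine ⟨fun _ => 0, fun S hS hne => ?_⟩
    rw [Finset.subset_empty] at hS
    exact absurd hne (by rw [hS]; exact Finset.not_nonempty_empty)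
  | insert i s hi ih =>
    obtain ⟨t, ht⟩ := ih
    obtain ⟨w, hw⟩ := Infinite.exists_notMem_finset
      (s.powerset.image fun S => - ∑ j ∈ S, t j)
    refine ⟨Function.update t i w, fun S hS hne => ?_⟩
    have hsum : ∀ S' ⊆ s, ∑ j ∈ S', Function.update t i w j = ∑ j ∈ S', t j := by
      intro S' hS'
      refine Finset.sum_congr rfl fun j hj => ?_
      rw [Function.update_of_ne]
      rintro rfl
      exact hi (hS' hj)
    by_cases hiS : i ∈ S
    · have h1 : S = insert i (S.erase i) := (Finset.insert_erase hiS).symm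
      have h2 : S.erase i ⊆ s := by
        intro j hj
        rw [Finset.mem_erase] at hj
        exact (Finset.mem_insert.1 (hS hj.2)).resolve_left hj.1
      rw [h1, Finset.sum_insert (Finset.notMem_erase i S), hsum _ h2, Function.update_self]
      intro h0
      apply hw
      rw [Finset.mem_image]
      exact ⟨S.erase i, Finset.mem_powerset.2 h2, (eq_neg_of_add_eq_zero_left h0).symm⟩
    · have h2 : S ⊆ s := by
        intro j hj
        refine (Finset.mem_insert.1 (hS hj)).resolve_left ?_
        rintro rfl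
        exact hiS hj
      rw [hsum _ h2]
      exact ht S h2 hne

/-- Basic neighbourhoods of `0` are non-trivial. -/
theorem exists_mem_Nb [Infinite K] [Finite Q] (F : Finset K) : ∃ β : K, β ≠ 0 ∧ β ∈ Nb c F := by
  classical
  -- the alphabet
  let A : Finset K := insert 0 (insert 1 F)
  obtain ⟨ι, hι, hHJ⟩ := Combinatorics.Line.exists_mono_in_high_dimension A Q
  obtain ⟨t, ht⟩ := exists_weights (K := K) (Finset.univ : Finset ι)
  obtain ⟨l, q, hl⟩ := hHJ (fun w => c (∑ i, t i * (w i : K)))
  let S : Finset ι := Finset.univ.filter fun i => l.idxFun i = none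
  have hS : S.Nonempty := by
    obtain ⟨i, hi⟩ := l.proper
    exact ⟨i, Finset.mem_filter.2 ⟨Finset.mem_univ _, hi⟩⟩
  let d : K := ∑ i ∈ S, t i
  have hd : d ≠ 0 := ht S (Finset.subset_univ _) hS
  let x₀ : K := ∑ i ∈ Sᶜ, t i * (((l.idxFun i).getD ⟨0, Finset.mem_insert_self _ _⟩ : A) : K)
  have hval : ∀ a : A, c (d * (a : K) + x₀) = q := by
    intro a
    rw [← hl a]
    congr 1
    rw [← Finset.sum_add_sum_compl S]
    congr 1
    · rw [Finset.sum_mul]
      refine Finset.sum_congr rfl fun i hi => ?_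
      have hi' : l.idxFun i = none := (Finset.mem_filter.1 hi).2
      rw [l.apply_none a i hi']
    · refine Finset.sum_congr rfl fun i hi => ?_
      have hi' : l.idxFun i ≠ none := by
        intro h
        exact (Finset.mem_compl.1 hi) (Finset.mem_filter.2 ⟨Finset.mem_univ _, h⟩)
      obtain ⟨b, hb⟩ := Option.ne_none_iff_exists'.1 hi'
      rw [l.apply_def]
      simp only [hb, Option.getD_some]
  have h0 : c x₀ = q := by
    have := hval ⟨0, Finset.mem_insert_self _ _⟩
    rwa [mul_zero, zero_add] at this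
  have h1 : c (d + x₀) = q := by
    have := hval ⟨1, Finset.mem_insert_of_mem (Finset.mem_insert_self _ _)⟩
    rwa [mul_one] at this
  have hx₀ : x₀ ≠ 0 := by
    intro h
    rw [h, map_zero] at h0
    rw [h, add_zero, ← h0] at h1
    exact hd ((map_eq_zero c).1 h1)
  have hcx : c x₀ ≠ 0 := (map_ne_zero c).2 hx₀
  refine ⟨d / x₀, div_ne_zero hd hx₀, fun f hf => ?_⟩
  have hf' : f ∈ A := Finset.mem_insert_of_mem (Finset.mem_insert_of_mem hf)
  have h2 := hval ⟨f, hf'⟩
  have h3 : 1 + f * (d / x₀) = (d * f + x₀) / x₀ := by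
    field_simp
    ring
  rw [h3, map_div₀, h2, h0]
  exact div_self (h0 ▸ hcx)

/-- Small elements of at least two colours. -/
theorem exists_mem_Nb_ne [Infinite K] [Finite Q] (hc : ∃ a : K, a ≠ 0 ∧ c a ≠ 1) (F : Finset K)
    (s : K) : ∃ β : K, β ≠ 0 ∧ β ∈ Nb c F ∧ c β ≠ c s := by
  classical
  obtain ⟨a, ha, hca⟩ := hc
  obtain ⟨β, hβ, hβF⟩ := exists_mem_Nb (c := c) (F ∪ F.image (fun f => f * a))
  by_contra hcon
  push Not at hcon
  have h1 : c β = c s := hcon β hβ (Nb.anti Finset.subset_union_left hβF)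
  have h2 : c (a * β) = c s := by
    refine hcon (a * β) (mul_ne_zero ha hβ) (fun f hf => ?_)
    have := hβF (f * a) (Finset.mem_union_right _ (Finset.mem_image_of_mem _ hf))
    rwa [mul_assoc] at this
  rw [map_mul, h1] at h2
  apply hca
  have hs : c s ≠ 0 := by rw [← h1]; exact (map_ne_zero c).2 hβ
  exact mul_right_cancel₀ hs (by rw [h2, one_mul])

variable (c)

/-- The element `y` is bad for the set `X`. -/
def Bad (y : K) (X F : Finset K) : Prop :=
  ∀ x ∈ X, x + y ≠ 0 ∧ ∃ δ ∈ Nb c F, x + y + δ ≠ 0 ∧ c (x + y + δ) ≠ c (x + y)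

variable {c}

/-- If `δ` is small compared to `s ≠ 0`, then `s + δ` has the colour of `s`. -/
theorem color_add {s δ : K} (hs : s ≠ 0) (h : c (1 + s⁻¹ * δ) = 1) :
    s + δ ≠ 0 ∧ c (s + δ) = c s := by
  have h1 : s + δ = s * (1 + s⁻¹ * δ) := by field_simp
  constructor
  · intro h0
    rw [h0] at h1
    have h2 : (1 + s⁻¹ * δ) = 0 := by
      rcases mul_eq_zero.1 h1.symm with h | h
      · exact absurd h hs
      · exact h
    rw [h2, map_zero] at h
    exact zero_ne_one h
  · rw [h1, map_mul, h, mul_one]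

theorem Bad.perturb {y : K} {X F : Finset K} (h : Bad c y X F) :
    ∃ F₁ : Finset K, ∀ η ∈ Nb c F₁, Bad c (y + η) X F := by
  classical
  choose! h1 δ hδ h2 h3 using h
  refine ⟨X.image (fun x => (x + y)⁻¹) ∪ X.image (fun x => (x + y + δ x)⁻¹),
    fun η hη x hx => ?_⟩
  have e1 := color_add (c := c) (h1 x hx)
    (hη _ (Finset.mem_union_left _ (Finset.mem_image_of_mem _ hx)))
  have e2 := color_add (c := c) (h2 x hx)
    (hη _ (Finset.mem_union_right _ (Finset.mem_image_of_mem _ hx)))
  refine ⟨by rw [← add_assoc]; exact e1.1, δ x, hδ x hx, ?_, ?_⟩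
  · have : x + (y + η) + δ x = x + y + δ x + η := by ring
    rw [this]
    exact e2.1
  · have : x + (y + η) + δ x = x + y + δ x + η := by ring
    rw [this, e2.2, ← add_assoc, e1.2]
    exact h3 x hx

/-- If addition is not jointly continuous there are bad elements for all finite sets. -/
theorem exists_bad_of_not [Infinite K] [Finite Q] (hc : ∃ a : K, a ≠ 0 ∧ c a ≠ 1)
    (hneg : ∀ F' : Finset K, ∃ α ∈ Nb c F', ∃ β ∈ Nb c F', c (1 + α + β) ≠ 1)
    (X F : Finset K) : ∃ y, Bad c y X F := by
  classical
  induction X using Finset.induction_on with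
  | empty => exact ⟨0, fun x hx => absurd hx (Finset.notMem_empty x)⟩
  | insert x₀ X _ ih =>
    obtain ⟨y, hy⟩ := ih
    -- first make `x₀ + y ≠ 0`
    obtain ⟨y, hy, hy0⟩ : ∃ y, Bad c y X F ∧ x₀ + y ≠ 0 := by
      by_cases h0 : x₀ + y = 0
      · obtain ⟨F₁, hF₁⟩ := hy.perturb
        obtain ⟨η, hη0, hη⟩ := exists_mem_Nb (c := c) F₁
        refine ⟨y + η, hF₁ η hη, ?_⟩
        rw [← add_assoc, h0, zero_add]
        exact hη0
      · exact ⟨y, hy, h0⟩
    obtain ⟨F₁, hF₁⟩ := hy.perturb
    set s := x₀ + y with hs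
    obtain ⟨α, hα, β, hβ, hαβ⟩ := hneg ((F₁ ∪ F).image (fun f => f * s) ∪ {1})
    have hη : s * α ∈ Nb c F₁ := by
      intro f hf
      have := hα (f * s) (Finset.mem_union_left _ (Finset.mem_image_of_mem _
        (Finset.mem_union_left _ hf)))
      rwa [mul_assoc] at this
    have hδ : s * β ∈ Nb c F := by
      intro f hf
      have := hβ (f * s) (Finset.mem_union_left _ (Finset.mem_image_of_mem _
        (Finset.mem_union_right _ hf)))
      rwa [mul_assoc] at this
    have hα1 : c (1 + α) = 1 := by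
      have := hα 1 (Finset.mem_union_right _ (Finset.mem_singleton_self _))
      rwa [one_mul] at this
    have hsα := color_add (c := c) (δ := s * α) hy0 (by rw [inv_mul_cancel_left₀ hy0, hα1])
    refine ⟨y + s * α, fun x hx => ?_⟩
    rcases Finset.mem_insert.1 hx with rfl | hx
    · have e1 : x + (y + s * α) = s + s * α := by rw [hs]; ring
      rw [e1]
      refine ⟨hsα.1, ?_⟩
      by_cases h0 : s + s * α + s * β = 0
      · -- move a bit further
        obtain ⟨ε, hε0, hε, hcε⟩ := exists_mem_Nb_ne (c := c) hc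
          (F.image (fun f => f / (1 + f * (s * β)))) s
        refine ⟨s * β + ε, fun f hf => ?_, ?_, ?_⟩
        · have h1 : c (1 + f * (s * β)) = 1 := hδ f hf
          have h2 : (1 + f * (s * β)) ≠ 0 := by
            intro h; rw [h, map_zero] at h1; exact zero_ne_one h1
          have h3 : c (1 + f / (1 + f * (s * β)) * ε) = 1 :=
            hε _ (Finset.mem_image_of_mem _ hf)
          have h4 : 1 + f * (s * β + ε) =
              (1 + f * (s * β)) * (1 + f / (1 + f * (s * β)) * ε) := by
            rw [mul_add (1 + f * (s * β)) 1, mul_one, ← mul_assoc (1 + f * (s * β)),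
              mul_div_cancel₀ _ h2]
            ring
          rw [h4, map_mul, h1, h3, mul_one]
        · rw [← add_assoc, h0, zero_add]
          exact hε0
        · rw [← add_assoc, h0, zero_add, hsα.2]
          exact hcε
      · refine ⟨s * β, hδ, h0, ?_⟩
        have e2 : s + s * α + s * β = s * (1 + α + β) := by ring
        rw [e2, map_mul, hsα.2]
        intro h
        apply hαβ
        exact mul_left_cancel₀ ((map_ne_zero c).2 hy0) (by rw [h, mul_one])
    · exact hF₁ _ hη x hx

end Pool.Agent.NIPFields.FI
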