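import Mathlib
import Pool.Agent.NIPFields.FI.Color

set_option autoImplicit false

/-!
# The tree argument
-/

namespace Pool.Agent.NIPFields.FI

open Finset

variable {K : Type*} [Field K] {Q : Type*} [GroupWithZero Q] {c : K →*₀ Q}

/-- The tree construction. -/
theorem exists_tree (h : ∀ X F : Finset K, ∃ y, Bad c y X F) (m : ℕ) :
    ∃ (X : Finset K) (y : Fin m → K), X.card = 2 ^ m ∧ (∀ x ∈ X, ∀ k, x + y k ≠ 0) ∧
      ∀ x ∈ X, ∀ x' ∈ X, (∀ k, c (x + y k) = c (x' + y k)) → x = x' := by
  classical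
  induction m with
  | zero =>
    refine ⟨{0}, fun k => k.elim0, by simp, fun x _ k => k.elim0, ?_⟩
    intro x hx x' hx' _
    rw [Finset.mem_singleton] at hx hx'
    rw [hx, hx']
  | succ m ih =>
    obtain ⟨X, y, hcard, hne, hinj⟩ := ih
    let F : Finset K := X.biUnion fun x => Finset.univ.image fun k => (x + y k)⁻¹
    obtain ⟨z, hz⟩ := h X F
    have hz0 : ∀ x ∈ X, x + z ≠ 0 := fun x hx => (hz x hx).1
    choose! δ hδ h2 h3 using fun x hx => (hz x hx).2
    have hold : ∀ x ∈ X, ∀ k, x + δ x + y k ≠ 0 ∧ c (x + δ x + y k) = c (x + y k) := by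
      intro x hx k
      have := color_add (c := c) (δ := δ x) (hne x hx k) (hδ x hx _ (Finset.mem_biUnion.2
        ⟨x, hx, Finset.mem_image_of_mem _ (Finset.mem_univ k)⟩))
      have e : x + δ x + y k = x + y k + δ x := by ring
      rw [e]
      exact this
    have hnew : ∀ x ∈ X, x + δ x + z ≠ 0 ∧ c (x + δ x + z) ≠ c (x + z) := by
      intro x hx
      have e : x + δ x + z = x + z + δ x := by ring
      rw [e]
      exact ⟨h2 x hx, h3 x hx⟩
    have hinj1 : Set.InjOn (fun x => x + δ x) X := by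
      intro x hx x' hx' hxx
      refine hinj x hx x' hx' (fun k => ?_)
      rw [← (hold x hx k).2, ← (hold x' hx' k).2]
      have hxx' : x + δ x = x' + δ x' := hxx
      rw [hxx']
    have hdisj : Disjoint X (X.image fun x => x + δ x) := by
      rw [Finset.disjoint_left]
      intro x' hx' hx''
      obtain ⟨x, hx, hxx⟩ := Finset.mem_image.1 hx''
      have hxx' : x + δ x = x' := hxx
      have h4 : x = x' := by
        refine hinj x hx x' hx' (fun k => ?_)
        rw [← (hold x hx k).2, hxx']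
      have h5 := (hnew x hx).2
      rw [hxx', h4] at h5
      exact h5 rfl
    refine ⟨X ∪ X.image (fun x => x + δ x), Fin.snoc y z, ?_, ?_, ?_⟩
    · rw [Finset.card_union_of_disjoint hdisj, Finset.card_image_of_injOn hinj1, hcard, pow_succ]
      ring
    · intro x hx k
      refine Fin.lastCases ?_ (fun k => ?_) k
      · rw [Fin.snoc_last]
        rcases Finset.mem_union.1 hx with hx | hx
        · exact hz0 x hx
        · obtain ⟨w, hw, rfl⟩ := Finset.mem_image.1 hx
          exact (hnew w hw).1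
      · rw [Fin.snoc_castSucc]
        rcases Finset.mem_union.1 hx with hx | hx
        · exact hne x hx k
        · obtain ⟨w, hw, rfl⟩ := Finset.mem_image.1 hx
          exact (hold w hw k).1
    · -- injectivity
      have key : ∀ x ∈ X, ∀ x' ∈ X, (∀ k : Fin m, c (x + y k) = c (x' + y k)) → x = x' := hinj
      intro x hx x' hx' hxx'
      have hlast : c (x + z) = c (x' + z) := by
        have := hxx' (Fin.last m)
        rwa [Fin.snoc_last] at this
      have hk : ∀ k : Fin m, c (x + y k) = c (x' + y k) := by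
        intro k
        have := hxx' k.castSucc
        rwa [Fin.snoc_castSucc] at this
      rcases Finset.mem_union.1 hx with hx | hx
      · rcases Finset.mem_union.1 hx' with hx' | hx'
        · exact key x hx x' hx' hk
        · obtain ⟨w, hw, rfl⟩ := Finset.mem_image.1 hx'
          have h4 : x = w := key x hx w hw (fun k => by rw [hk k, (hold w hw k).2])
          subst h4
          exact absurd hlast.symm (hnew x hx).2
      · obtain ⟨w, hw, rfl⟩ := Finset.mem_image.1 hx
        rcases Finset.mem_union.1 hx' with hx' | hx'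
        · have h4 : w = x' := key w hw x' hx' (fun k => by rw [← (hold w hw k).2, hk k])
          subst h4
          exact absurd hlast (hnew w hw).2
        · obtain ⟨w', hw', rfl⟩ := Finset.mem_image.1 hx'
          have h4 : w = w' := key w hw w' hw' (fun k => by
            rw [← (hold w hw k).2, hk k, (hold w' hw' k).2])
          rw [h4]

theorem sum_choose_le (m d : ℕ) : ∑ k ∈ Finset.Iic d, m.choose k ≤ (m + 1) ^ d := by
  rw [add_pow]
  have h1 : Finset.Iic d = Finset.range (d + 1) := by
    ext x; simp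
  rw [h1]
  refine Finset.sum_le_sum fun k hk => ?_
  rw [Finset.mem_range, Nat.lt_succ_iff] at hk
  rw [one_pow, mul_one]
  calc m.choose k ≤ m ^ k := Nat.choose_le_pow m k
    _ = m ^ k * 1 := (mul_one _).symm
    _ ≤ m ^ k * d.choose k := Nat.mul_le_mul_left _ (Nat.choose_pos hk)

theorem exists_pow_lt (D : ℕ) : ∃ m : ℕ, (m + 1) ^ D < 2 ^ m := by
  have h1 := tendsto_pow_const_div_const_pow_of_one_lt D (r := (2 : ℝ)) (by norm_num)
  have h2 := h1.eventually (gt_mem_nhds (show (0 : ℝ) < 1 / 2 by norm_num))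
  obtain ⟨n, hn1, hn2⟩ := (h2.and (Filter.eventually_ge_atTop 1)).exists
  obtain ⟨m, rfl⟩ : ∃ m, n = m + 1 := ⟨n - 1, by omega⟩
  refine ⟨m, ?_⟩
  have h3 : ((m + 1 : ℕ) : ℝ) ^ D < 2 ^ m := by
    rw [div_lt_div_iff₀ (by positivity) (by norm_num)] at hn1
    rw [pow_succ] at hn1
    linarith
  exact_mod_cast h3

/-- Bounded VC dimension excludes the tree. -/
theorem exists_good [Finite Q]
    (hVC : ∃ d : ℕ, ∀ y : Fin d → K, ∃ J : Finset (Fin d), ∀ x : K,
      ∃ i, ¬ (c (x + y i) = 1 ↔ i ∈ J)) :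
    ∃ X F : Finset K, ∀ y, ¬ Bad c y X F := by
  classical
  by_contra hcon
  push Not at hcon
  obtain ⟨d, hd⟩ := hVC
  have _ := Fintype.ofFinite Q
  obtain ⟨m, hm⟩ := exists_pow_lt (d * Fintype.card Q)
  obtain ⟨X, y, hcard, hne, hinj⟩ := exists_tree hcon m
  let g : K → Q → Finset (Fin m) := fun x q => Finset.univ.filter fun k => c (x + y k) = q
  let 𝒜 : Q → Finset (Finset (Fin m)) := fun q => X.image fun x => g x q
  have hA : ∀ q, (𝒜 q).card ≤ (m + 1) ^ d := by
    intro q
    by_cases hq : ∃ r : K, r ≠ 0 ∧ c r = q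
    · obtain ⟨r, hr, rfl⟩ := hq
      have hdim : (𝒜 (c r)).vcDim ≤ d := by
        unfold Finset.vcDim
        refine Finset.sup_le fun s hs => ?_
        rw [Finset.mem_shatterer] at hs
        by_contra hlt
        rw [not_le] at hlt
        obtain ⟨s', hs', hcs'⟩ := Finset.exists_subset_card_eq hlt.le
        have hsh : (𝒜 (c r)).Shatters s' := hs.mono_right hs'
        let e : Fin d ≃ s' := (Fintype.equivFinOfCardEq (by
          rw [Fintype.card_coe, hcs'])).symm
        obtain ⟨J, hJ⟩ := hd (fun i => r⁻¹ * y (e i))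
        obtain ⟨u, hu, hu'⟩ := hsh (t := (J.image fun i => (e i : Fin m))) (by
          intro k hk
          obtain ⟨i, _, rfl⟩ := Finset.mem_image.1 hk
          exact (e i).2)
        obtain ⟨x, _, rfl⟩ := Finset.mem_image.1 hu
        obtain ⟨i, hi⟩ := hJ (r⁻¹ * x)
        apply hi
        have h1 : r⁻¹ * x + r⁻¹ * y (e i) = r⁻¹ * (x + y (e i)) := by ring
        have hcr : c r ≠ 0 := (map_ne_zero c).2 hr
        have h2 : c (r⁻¹ * x + r⁻¹ * y (e i)) = 1 ↔ c (x + y (e i)) = c r := by
          rw [h1, map_mul, map_inv₀]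
          exact inv_mul_eq_one₀ hcr |>.trans eq_comm
        rw [h2]
        have h3 : ((e i : Fin m) ∈ s' ∩ g x (c r)) ↔ (e i : Fin m) ∈ J.image fun i => (e i : Fin m) :=
          by rw [hu']
        rw [Finset.mem_inter, Finset.mem_filter, Finset.mem_image] at h3
        constructor
        · intro h
          obtain ⟨i', hi', hii'⟩ := h3.1 ⟨(e i).2, Finset.mem_univ _, h⟩
          have : i' = i := e.injective (Subtype.ext hii')
          exact this ▸ hi'
        · intro h
          exact (h3.2 ⟨i, h, rfl⟩).2.2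
      calc (𝒜 (c r)).card ≤ (𝒜 (c r)).shatterer.card := Finset.card_le_card_shatterer _
        _ ≤ ∑ k ∈ Finset.Iic (𝒜 (c r)).vcDim, (Fintype.card (Fin m)).choose k :=
            Finset.card_shatterer_le_sum_vcDim
        _ = ∑ k ∈ Finset.Iic (𝒜 (c r)).vcDim, m.choose k := by rw [Fintype.card_fin]
        _ ≤ (m + 1) ^ (𝒜 (c r)).vcDim := sum_choose_le _ _
        _ ≤ (m + 1) ^ d := Nat.pow_le_pow_right (Nat.succ_pos _) hdim
    · have h1 : 𝒜 q ⊆ {∅} := by
        intro s hs
        obtain ⟨x, hx, rfl⟩ := Finset.mem_image.1 hs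
        rw [Finset.mem_singleton, Finset.eq_empty_iff_forall_notMem]
        intro k hk
        exact hq ⟨x + y k, hne x hx k, (Finset.mem_filter.1 hk).2⟩
      calc (𝒜 q).card ≤ ({∅} : Finset (Finset (Fin m))).card := Finset.card_le_card h1
        _ = 1 := Finset.card_singleton _
        _ ≤ (m + 1) ^ d := Nat.one_le_pow _ _ (Nat.succ_pos _)
  have hX : X.card ≤ (Fintype.piFinset 𝒜).card := by
    refine Finset.card_le_card_of_injOn (fun x => g x) ?_ ?_
    · intro x hx
      rw [Finset.mem_coe, Fintype.mem_piFinset]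
      exact fun q => Finset.mem_image_of_mem _ hx
    · intro x hx x' hx' hxx'
      refine hinj x hx x' hx' (fun k => ?_)
      have h1 : g x (c (x + y k)) = g x' (c (x + y k)) := congrFun hxx' _
      have h2 : k ∈ g x' (c (x + y k)) := by
        rw [← h1]
        exact Finset.mem_filter.2 ⟨Finset.mem_univ _, rfl⟩
      exact (Finset.mem_filter.1 h2).2.symm
  rw [Fintype.card_piFinset, hcard] at hX
  have h1 : ∏ q, (𝒜 q).card ≤ ∏ _q : Q, (m + 1) ^ d := Finset.prod_le_prod' fun q _ => hA q
  rw [Finset.prod_const, Finset.card_univ, ← pow_mul] at h1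
  exact absurd (hX.trans h1) (not_le.2 hm)

/-- Joint continuity of addition. -/
theorem exists_add [Infinite K] [Finite Q] (hc : ∃ a : K, a ≠ 0 ∧ c a ≠ 1)
    (hVC : ∃ d : ℕ, ∀ y : Fin d → K, ∃ J : Finset (Fin d), ∀ x : K,
      ∃ i, ¬ (c (x + y i) = 1 ↔ i ∈ J)) :
    ∃ F : Finset K, ∀ α ∈ Nb c F, ∀ β ∈ Nb c F, c (1 + α + β) = 1 := by
  by_contra hcon
  push Not at hcon
  obtain ⟨X, F, h⟩ := exists_good hVC
  obtain ⟨y, hy⟩ := exists_bad_of_not hc hcon X F
  exact h y hy

end Pool.Agent.NIPFields.FI
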