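import Mathlib
import Pool.Agent.NIPFields.Approximate
import Pool.Agent.NIPFields.FI.Tree
import Pool.Agent.NIPFields.FI.Ring

set_option autoImplicit false

/-!
# Passing to an ultrapower
-/

namespace Pool.Agent.NIPFields.FI

open Filter

universe u

section

variable {K : Type u} [Field K] {Q : Type*} [GroupWithZero Q] {c : K →*₀ Q}

/-- The ultrafilter on the finite subsets of `K`. -/
noncomputable def UF (K : Type u) : Ultrafilter (Finset K) := Ultrafilter.of atTop

theorem eventually_mem (a : K) : ∀ᶠ F in (UF K : Filter (Finset K)), a ∈ F := by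
  have h1 : ∀ᶠ F in (atTop : Filter (Finset K)), a ∈ F := by
    filter_upwards [eventually_ge_atTop ({a} : Finset K)] with F hF
    exact hF (Finset.mem_singleton_self a)
  exact Ultrafilter.of_le _ h1

/-- The ultrapower as an algebra. -/
noncomputable abbrev germAlg (K : Type u) [Field K] :
    Algebra K (Germ (UF K : Filter (Finset K)) K) :=
  (germConst (UF K : Filter (Finset K)) K).toAlgebra

variable (c) in
/-- The extension of the group to the ultrapower. -/
def TS : Set (Germ (UF K : Filter (Finset K)) K) := {x | x.LiftPred (fun z => c z = 1)}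

theorem mem_TS {f : Finset K → K} : (↑f : Germ (UF K : Filter (Finset K)) K) ∈ TS c ↔
    ∀ᶠ t in (UF K : Filter (Finset K)), c (f t) = 1 := Iff.rfl

attribute [local instance] germAlg

theorem alg_apply (a : K) : algebraMap K (Germ (UF K : Filter (Finset K)) K) a =
    (↑(fun _ : Finset K => a) : Germ (UF K : Filter (Finset K)) K) := rfl

theorem mem_TS_lin {a : K} {f : Finset K → K} :
    1 + algebraMap K (Germ (UF K : Filter (Finset K)) K) a *
      (↑f : Germ (UF K : Filter (Finset K)) K) ∈ TS c ↔
    ∀ᶠ t in (UF K : Filter (Finset K)), c (1 + a * f t) = 1 := Iff.rfl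

theorem dat_of_VC [Infinite K] [Finite Q] (hc : ∃ a : K, a ≠ 0 ∧ c a ≠ 1)
    (hVC : ∃ d : ℕ, ∀ y : Fin d → K, ∃ J : Finset (Fin d), ∀ x : K,
      ∃ i, ¬ (c (x + y i) = 1 ↔ i ∈ J)) :
    Dat K (Germ (UF K : Filter (Finset K)) K) (TS c) where
  one := by
    rw [← Germ.coe_one]
    exact Eventually.of_forall fun _ => map_one c
  zero := by
    rw [← Germ.coe_zero, mem_TS]
    intro h
    obtain ⟨t, ht⟩ := h.exists
    rw [Pi.zero_apply, map_zero] at ht
    exact zero_ne_one ht
  mul := by
    intro x hx y hy
    induction x using Germ.inductionOn with | _ f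
    induction y using Germ.inductionOn with | _ g
    rw [mem_TS] at hx hy
    rw [← Germ.coe_mul, mem_TS]
    filter_upwards [hx, hy] with t h1 h2
    rw [Pi.mul_apply, map_mul, h1, h2, one_mul]
  inv := by
    intro x hx
    induction x using Germ.inductionOn with | _ f
    rw [mem_TS] at hx
    rw [← Germ.coe_inv, mem_TS]
    filter_upwards [hx] with t h1
    rw [Pi.inv_apply, map_inv₀, h1, inv_one]
  ne := by
    obtain ⟨a, ha, hca⟩ := hc
    refine ⟨a, ha, fun h => ?_⟩
    rw [alg_apply, mem_TS] at h
    obtain ⟨t, ht⟩ := h.exists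
    exact hca ht
  small := by
    choose ε hε0 hε using fun F : Finset K => exists_mem_Nb (c := c) F
    refine ⟨(↑ε : Germ (UF K : Filter (Finset K)) K), ?_, fun a => ?_⟩
    · intro h0
      rw [← Germ.coe_zero, Germ.coe_eq] at h0
      obtain ⟨t, ht⟩ := h0.exists
      exact hε0 t ht
    · rw [mem_TS_lin]
      filter_upwards [eventually_mem a] with F hF
      exact hε F a hF
  add := by
    obtain ⟨F, hF⟩ := exists_add hc hVC
    refine ⟨F, fun α hα β hβ => ?_⟩
    induction α using Germ.inductionOn with | _ f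
    induction β using Germ.inductionOn with | _ g
    have h1 : ∀ᶠ t in (UF K : Filter (Finset K)), ∀ a ∈ F, c (1 + a * f t) = 1 := by
      rw [Filter.eventually_all_finset]
      exact fun a ha => mem_TS_lin.1 (hα a ha)
    have h2 : ∀ᶠ t in (UF K : Filter (Finset K)), ∀ a ∈ F, c (1 + a * g t) = 1 := by
      rw [Filter.eventually_all_finset]
      exact fun a ha => mem_TS_lin.1 (hβ a ha)
    rw [← Germ.coe_one, ← Germ.coe_add, ← Germ.coe_add, mem_TS]
    filter_upwards [h1, h2] with t e1 e2
    exact hF _ e1 _ e2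
  good := by
    obtain ⟨X, F, h⟩ := exists_good hVC
    refine ⟨X, F, fun y => ?_⟩
    induction y using Germ.inductionOn with | _ g
    have h1 : ∀ t : Finset K, ∃ x ∈ X, x + g t = 0 ∨
        (x + g t ≠ 0 ∧ ∀ δ ∈ Nb c F, x + g t + δ = 0 ∨ c (x + g t + δ) = c (x + g t)) := by
      intro t
      have h2 := h (g t)
      unfold Bad at h2
      push Not at h2
      obtain ⟨x, hx, hx2⟩ := h2
      refine ⟨x, hx, ?_⟩
      by_cases h0 : x + g t = 0
      · exact Or.inl h0
      · refine Or.inr ⟨h0, fun δ hδ => ?_⟩
        by_cases h3 : x + g t + δ = 0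
        · exact Or.inl h3
        · exact Or.inr (hx2 h0 δ hδ h3)
    have h2 : ∀ᶠ t in (UF K : Filter (Finset K)), ∃ x ∈ (X : Set K), x + g t = 0 ∨
        (x + g t ≠ 0 ∧ ∀ δ ∈ Nb c F, x + g t + δ = 0 ∨ c (x + g t + δ) = c (x + g t)) :=
      Eventually.of_forall h1
    rw [Ultrafilter.eventually_exists_mem_iff (Finset.finite_toSet X)] at h2
    obtain ⟨x, hx, h3⟩ := h2
    refine ⟨x, hx, ?_⟩
    rw [Ultrafilter.eventually_or] at h3
    rcases h3 with h3 | h3
    · left
      rw [alg_apply, ← Germ.coe_add, ← Germ.coe_zero, Germ.coe_eq]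
      exact h3
    · right
      intro δ hδ
      induction δ using Germ.inductionOn with | _ d
      have h4 : ∀ᶠ t in (UF K : Filter (Finset K)), ∀ a ∈ F, c (1 + a * d t) = 1 := by
        rw [Filter.eventually_all_finset]
        exact fun a ha => mem_TS_lin.1 (hδ a ha)
      have h5 : ∀ᶠ t in (UF K : Filter (Finset K)), x + g t + d t = 0 ∨
          c (1 + d t / (x + g t)) = 1 := by
        filter_upwards [h3, h4] with t e1 e2
        rcases e1.2 (d t) e2 with e3 | e3
        · exact Or.inl e3
        · right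
          have e4 : c (x + g t) ≠ 0 := (map_ne_zero c).2 e1.1
          apply mul_left_cancel₀ e4
          rw [← map_mul, mul_one, mul_add, mul_one, mul_div_cancel₀ _ e1.1]
          exact e3
      rw [Ultrafilter.eventually_or] at h5
      rcases h5 with h5 | h5
      · left
        rw [alg_apply, ← Germ.coe_add, ← Germ.coe_add, ← Germ.coe_zero, Germ.coe_eq]
        exact h5
      · right
        rw [alg_apply, ← Germ.coe_add, ← Germ.coe_div, ← Germ.coe_one, ← Germ.coe_add, mem_TS]
        exact h5

end

end Pool.Agent.NIPFields.FI
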