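import Mathlib
import Pool.Agent.NIPFields.FI.Ultra
import Pool.Agent.NIPFields.FI.Dense
import Pool.Agent.NIPFields.FI.Nbhd
import Pool.Agent.NIPFields.FI.Transfer

set_option autoImplicit false

/-!
# Shelah's conjecture for NIP fields of positive characteristic with finitely many power classes
-/

namespace Pool.Agent.NIPFields.FI

open FirstOrder FirstOrder.Language FirstOrder.Ring Set Filter IsLocalRing

universe u v

section

variable {L : Type u} [Field L]

/-- The set of colours. -/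
def Qt (H : Subgroup Lˣ) : Type u := WithZero (Lˣ ⧸ H)

noncomputable instance (H : Subgroup Lˣ) : GroupWithZero (Qt H) :=
  inferInstanceAs (GroupWithZero (WithZero (Lˣ ⧸ H)))

/-- The class of a unit. -/
def Qt.mk {H : Subgroup Lˣ} (x : Lˣ) : Qt H := (((x : Lˣ ⧸ H)) : WithZero (Lˣ ⧸ H))

theorem Qt.mk_one {H : Subgroup Lˣ} : (Qt.mk (1 : Lˣ) : Qt H) = 1 := rfl

theorem Qt.mk_mul {H : Subgroup Lˣ} (x y : Lˣ) : (Qt.mk (x * y) : Qt H) = Qt.mk x * Qt.mk y :=
  WithZero.coe_mul (x : Lˣ ⧸ H) (y : Lˣ ⧸ H)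

theorem Qt.mk_eq {H : Subgroup Lˣ} (x : Lˣ) : (Qt.mk x : Qt H) = 1 ↔ x ∈ H := by
  rw [← Qt.mk_one]
  refine WithZero.coe_inj.trans ?_
  exact (QuotientGroup.eq_one_iff x)

open scoped Classical in
/-- The colouring of a field by the classes of a subgroup. -/
noncomputable def col (H : Subgroup Lˣ) : L →*₀ Qt H where
  toFun x := if h : x = 0 then 0 else Qt.mk (Units.mk0 x h)
  map_zero' := dif_pos rfl
  map_one' := by
    rw [dif_neg one_ne_zero]
    have : Units.mk0 (1 : L) one_ne_zero = 1 := Units.ext rfl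
    rw [this]
    rfl
  map_mul' := by
    intro x y
    by_cases hx : x = 0
    · subst hx
      rw [dif_pos (zero_mul y), dif_pos rfl, zero_mul]
    by_cases hy : y = 0
    · subst hy
      rw [dif_pos (mul_zero x), dif_pos rfl, mul_zero]
    rw [dif_neg hx, dif_neg hy, dif_neg (mul_ne_zero hx hy), ← Qt.mk_mul]
    congr 1
    exact Units.ext rfl

theorem col_eq_one {H : Subgroup Lˣ} {x : L} :
    col H x = 1 ↔ ∃ y : Lˣ, y ∈ H ∧ x = (y : L) := by
  classical
  change (if h : x = 0 then 0 else Qt.mk (Units.mk0 x h) : Qt H) = 1 ↔ _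
  by_cases hx : x = 0
  · rw [dif_pos hx]
    constructor
    · intro h; exact absurd h zero_ne_one
    · rintro ⟨y, _, hy⟩
      exact absurd (hx ▸ hy).symm y.ne_zero
  · rw [dif_neg hx, Qt.mk_eq]
    constructor
    · intro h; exact ⟨_, h, rfl⟩
    · rintro ⟨y, hy, hxy⟩
      have : Units.mk0 x hx = y := Units.ext hxy
      rwa [this]

theorem finite_Q {H : Subgroup Lˣ} [H.FiniteIndex] : Finite (Qt H) := by
  have : Finite (Lˣ ⧸ H) := Subgroup.finite_quotient_of_finiteIndex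
  exact inferInstanceAs (Finite (Option (Lˣ ⧸ H)))

theorem col_pow {ℓ : ℕ} {x : L} : col ((powMonoidHom ℓ : Lˣ →* Lˣ).range) x = 1 ↔
    ∃ y, y ≠ 0 ∧ x = y ^ ℓ := by
  rw [col_eq_one]
  constructor
  · rintro ⟨_, ⟨z, rfl⟩, rfl⟩
    exact ⟨z, z.ne_zero, by simp⟩
  · rintro ⟨y, hy, rfl⟩
    exact ⟨(Units.mk0 y hy) ^ ℓ, ⟨Units.mk0 y hy, rfl⟩, by simp⟩

/-- The VC dimension of the translates of the powers in an NIP field. -/
theorem NIP.vc [CompatibleRing L] (hL : NIP L) (ℓ : ℕ) :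
    ∃ d : ℕ, ∀ y : Fin d → L, ∃ J : Finset (Fin d), ∀ x : L,
      ∃ i, ¬ (col ((powMonoidHom ℓ : Lˣ →* Lˣ).range) (x + y i) = 1 ↔ i ∈ J) := by
  let e : Module.Basis (Fin (Module.finrank L L)) L L := Module.finBasis L L
  have h0 : LDef e {v : (Fin 1 ⊕ Fin 1) ⊕ Fin 1 → L | v (Sum.inr 0) = 0} :=
    LFun.eq (LFun.var _) (LFun.const 0)
  have h1 : LDef e {v : (Fin 1 ⊕ Fin 1) ⊕ Fin 1 → L |
      v (Sum.inl (Sum.inr 0)) + v (Sum.inl (Sum.inl 0)) = v (Sum.inr 0) ^ ℓ} :=
    LFun.eq ((LFun.var _).add (LFun.var _)) ((LFun.var _).pow ℓ)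
  obtain ⟨n, hn⟩ := hL.ldef (h0.compl.inter h1).exists
  refine ⟨n, fun y => ?_⟩
  by_contra hcon
  push Not at hcon
  choose x hx using hcon
  obtain ⟨i, J, hiJ⟩ := hn (fun i _ => y i) (fun J _ => x J)
  apply hiJ
  rw [← hx J i, col_pow]
  constructor
  · rintro ⟨u, hu1, hu2⟩
    exact ⟨u 0, hu1, hu2⟩
  · rintro ⟨z, hz1, hz2⟩
    exact ⟨fun _ => z, hz1, hz2⟩

end

/-- The main theorem, for the field itself. -/
theorem exists_definable_of_finiteIndex {L : Type u} [Field L] [CompatibleRing L] (hL : NIP L)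
    {p : ℕ} [hp : Fact p.Prime] [CharP L p] [Infinite L] {ℓ : ℕ} (hℓ : (ℓ : L) ≠ 0)
    (hfin : ((powMonoidHom ℓ : Lˣ →* Lˣ).range).FiniteIndex)
    (hnp : ∃ a : L, a ≠ 0 ∧ ∀ y, a ≠ y ^ ℓ) :
    ∃ O' : ValuationSubring L, O' ≠ ⊤ ∧
      (univ : Set L).Definable₁ Language.ring {x | x ∈ O'} := by
  classical
  have hQ : Finite (Qt (powMonoidHom ℓ : Lˣ →* Lˣ).range) := finite_Q
  let c := col ((powMonoidHom ℓ : Lˣ →* Lˣ).range)
  have hc : ∃ a : L, a ≠ 0 ∧ c a ≠ 1 := by
    obtain ⟨a, ha, h⟩ := hnp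
    refine ⟨a, ha, fun h1 => ?_⟩
    obtain ⟨y, _, hy⟩ := col_pow.1 h1
    exact h y hy
  let E := Germ (UF L : Filter (Finset L)) L
  let _ : Algebra L E := germAlg L
  have D : Dat L E (TS c) := dat_of_VC (c := c) hc (NIP.vc hL ℓ)
  have hT : ∀ x : E, x ∈ TS c ↔ ∃ y, y ≠ 0 ∧ x = y ^ ℓ := by
    intro x
    induction x using Germ.inductionOn with | _ f
    rw [mem_TS]
    constructor
    · intro h
      let g : Finset L → L := fun t => if ht : ∃ y, y ≠ 0 ∧ f t = y ^ ℓ then ht.choose else 1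
      refine ⟨(↑g : E), ?_, ?_⟩
      · intro h0
        rw [← Germ.coe_zero, Germ.coe_eq] at h0
        obtain ⟨t, h1, h2⟩ := (h.and h0).exists
        have h3 : ∃ y, y ≠ 0 ∧ f t = y ^ ℓ := col_pow.1 h1
        have h4 : g t = h3.choose := dif_pos h3
        rw [h4] at h2
        exact h3.choose_spec.1 h2
      · rw [← Germ.coe_pow, Germ.coe_eq]
        filter_upwards [h] with t h1
        have h3 : ∃ y, y ≠ 0 ∧ f t = y ^ ℓ := col_pow.1 h1
        have h4 : g t = h3.choose := dif_pos h3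
        rw [Pi.pow_apply, h4]
        exact h3.choose_spec.2
    · rintro ⟨y, hy, hxy⟩
      induction y using Germ.inductionOn with | _ g
      rw [← Germ.coe_pow, Germ.coe_eq] at hxy
      have h1 : ∀ᶠ t in (UF L : Filter (Finset L)), g t ≠ 0 := by
        have h2 : ¬ ∀ᶠ t in (UF L : Filter (Finset L)), g t = 0 := by
          intro h
          apply hy
          rw [← Germ.coe_zero, Germ.coe_eq]
          exact h
        rw [← Ultrafilter.eventually_not] at h2
        exact h2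
      filter_upwards [hxy, h1] with t h2 h3
      exact col_pow.2 ⟨g t, h3, h2⟩
  obtain ⟨W, hW, hnd⟩ := D.exists_nondense hT
  -- coset representatives
  have hR : ∃ R : Finset E, ∀ x : E, x ≠ 0 → ∃ r ∈ R, ∃ y, y ≠ 0 ∧ x = r * y ^ ℓ := by
    have hfq : Finite (Lˣ ⧸ (powMonoidHom ℓ : Lˣ →* Lˣ).range) :=
      Subgroup.finite_quotient_of_finiteIndex
    have _ := Fintype.ofFinite (Lˣ ⧸ (powMonoidHom ℓ : Lˣ →* Lˣ).range)
    let rep : (Lˣ ⧸ (powMonoidHom ℓ : Lˣ →* Lˣ).range) → L := fun q => ((Quotient.out q : Lˣ) : L)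
    let R₀ : Finset L := Finset.univ.image rep
    have hR₀ : ∀ x : L, x ≠ 0 → ∃ r ∈ (R₀ : Set L), r ≠ 0 ∧ ∃ y, y ≠ 0 ∧ x / r = y ^ ℓ := by
      intro x hx
      set q : Lˣ ⧸ (powMonoidHom ℓ : Lˣ →* Lˣ).range := QuotientGroup.mk (Units.mk0 x hx) with hq
      refine ⟨rep q, Finset.mem_coe.2 (Finset.mem_image_of_mem _ (Finset.mem_univ q)),
        (Quotient.out q : Lˣ).ne_zero, ?_⟩
      have h1 : (Quotient.out q : Lˣ)⁻¹ * Units.mk0 x hx ∈ (powMonoidHom ℓ : Lˣ →* Lˣ).range := by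
        rw [← QuotientGroup.eq]
        exact (QuotientGroup.out_eq' q).trans hq
      obtain ⟨z, hz⟩ := h1
      refine ⟨z, z.ne_zero, ?_⟩
      have h2 := congrArg (Units.val) hz
      rw [powMonoidHom_apply, Units.val_pow_eq_pow_val, Units.val_mul, Units.val_mk0] at h2
      rw [h2, Units.val_inv_eq_inv_val, div_eq_inv_mul]
    refine ⟨R₀.image (fun r => (↑(fun _ : Finset L => r) : E)), fun x hx => ?_⟩
    induction x using Germ.inductionOn with | _ f
    have h1 : ∀ᶠ t in (UF L : Filter (Finset L)), f t ≠ 0 := by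
      have h2 : ¬ ∀ᶠ t in (UF L : Filter (Finset L)), f t = 0 := by
        intro h
        apply hx
        rw [← Germ.coe_zero, Germ.coe_eq]
        exact h
      rw [← Ultrafilter.eventually_not] at h2
      exact h2
    have h2 : ∀ᶠ t in (UF L : Filter (Finset L)), ∃ r ∈ (R₀ : Set L), r ≠ 0 ∧
        ∃ y, y ≠ 0 ∧ f t / r = y ^ ℓ := by
      filter_upwards [h1] with t ht
      exact hR₀ _ ht
    rw [Ultrafilter.eventually_exists_mem_iff (Finset.finite_toSet R₀)] at h2
    obtain ⟨r, hr, h3⟩ := h2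
    have hr0 : r ≠ 0 := by
      obtain ⟨t, ht⟩ := h3.exists
      exact ht.1
    have h4 : (↑(fun t => f t / r) : E) ∈ TS c := by
      rw [mem_TS]
      filter_upwards [h3] with t ht
      exact col_pow.2 ht.2
    obtain ⟨y, hy, hxy⟩ := (hT _).1 h4
    refine ⟨_, Finset.mem_image_of_mem _ (Finset.mem_coe.1 hr), y, hy, ?_⟩
    rw [← hxy, ← Germ.coe_mul, Germ.coe_eq]
    exact Eventually.of_forall fun t => (mul_div_cancel₀ (f t) hr0).symm
  obtain ⟨R, hR⟩ := hR
  let _ : CompatibleRing E := germCompat (UF L) L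
  have hE : NIP E := NIP.germ hL
  have hchE : CharP E p :=
    charP_of_injective_ringHom (germConst (UF L : Filter (Finset L)) L).injective p
  have hℓE : (ℓ : E) ≠ 0 := by
    intro h
    apply hℓ
    apply (germConst (UF L : Filter (Finset L)) L).injective
    rw [map_natCast, map_zero]
    exact h
  obtain ⟨V, hV, ⟨s, hs0, hs⟩, ⟨t, ht0, ht⟩⟩ := exists_nbhd_of_nondense hW hR hnd
  obtain ⟨O, hO, hOdef⟩ := exists_definable_of_nbhd hE (p := p) hW hV hs0 hs ht0 ht hℓE (by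
    obtain ⟨b, hb, hbT⟩ := D.ne
    refine ⟨algebraMap L E b, (map_ne_zero _).2 hb, fun y hy => ?_⟩
    apply hbT
    rw [hT]
    refine ⟨y, ?_, hy⟩
    rintro rfl
    have hℓ0 : ℓ ≠ 0 := by rintro rfl; exact hℓ Nat.cast_zero
    rw [zero_pow hℓ0] at hy
    exact (map_ne_zero (algebraMap L E)).2 hb hy)
  exact exists_definable_of_germ O hO hOdef

/-- The main theorem. -/
theorem shelah_of_finiteIndex {K : Type u} [Field K] [CompatibleRing K] (hK : NIP K) (p : ℕ)
    [hp : Fact p.Prime] [CharP K p] [Infinite K] {L : Type v} [Field L] [Algebra K L]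
    [FiniteDimensional K L] {ℓ : ℕ} (hℓp : ¬ p ∣ ℓ)
    (hfin : ((powMonoidHom ℓ : Lˣ →* Lˣ).range).FiniteIndex)
    (hnp : ∃ a : L, ∀ y, a ≠ y ^ ℓ) :
    ∃ O : ValuationSubring K, O ≠ ⊤ ∧ HenselianLocalRing O ∧
      (univ : Set K).Definable₁ Language.ring {x | x ∈ O} := by
  let _ : CompatibleRing L := compatibleRingOfRing L
  have hchL : CharP L p := charP_of_injective_algebraMap (algebraMap K L).injective p
  have hℓ : (ℓ : L) ≠ 0 := fun h => hℓp ((CharP.cast_eq_zero_iff L p ℓ).1 h)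
  have hℓ0 : ℓ ≠ 0 := by rintro rfl; exact hℓ Nat.cast_zero
  have hinf : Infinite L := Infinite.of_injective _ (algebraMap K L).injective
  let bas : Module.Basis (Fin (Module.finrank K L)) K L := Module.finBasis K L
  have hL : NIP L := hK.finite bas
  obtain ⟨O', hO'1, hO'2⟩ := exists_definable_of_finiteIndex hL (p := p) hℓ hfin (by
    obtain ⟨a, ha⟩ := hnp
    refine ⟨a, ?_, ha⟩
    rintro rfl
    exact ha 0 (zero_pow hℓ0).symm)
  have hdef : (univ : Set K).Definable₁ Language.ring {x : K | algebraMap K L x ∈ {x | x ∈ O'}} :=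
    (LDef₁.of_definable (e := bas) hO'2).restrict
  let O : ValuationSubring K := O'.comap (algebraMap K L)
  have hO : O ≠ ⊤ := by
    intro htop
    apply hO'1
    rw [eq_top_iff]
    intro x _
    have hint : IsIntegral O' x := by
      have h1 : IsIntegral K x := IsIntegral.of_finite K x
      let φ : K →+* O' := (algebraMap K L).codRestrict O' (by
        intro y
        have : y ∈ O := by rw [htop]; trivial
        exact this)
      obtain ⟨q, hq, hqx⟩ := h1
      refine ⟨q.map φ, hq.map φ, ?_⟩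
      rw [Polynomial.eval₂_map]
      exact hqx
    obtain ⟨y, hy⟩ := IsIntegrallyClosed.isIntegral_iff.1 hint
    rw [← hy]
    exact y.2
  have hOdef : (univ : Set K).Definable₁ Language.ring {x | x ∈ O} := hdef
  exact ⟨O, hO, hK.henselian_of_definable p hO hOdef, hOdef⟩

end Pool.Agent.NIPFields.FI
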