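import Mathlib

set_option autoImplicit false

/-!
# Fields with finitely many separable extensions of bounded degree
-/

namespace Pool.Agent.NIPFields.FI

open Module

universe u v w

section

variable {L : Type u} {Ω : Type v} [Field L] [Field Ω] [Algebra L Ω]

theorem finiteIndex_of_finite [IsSepClosed Ω] [IsGalois L Ω] {n : ℕ} (hn : (n : L) ≠ 0)
    (hfin : {E : IntermediateField L Ω | FiniteDimensional L E ∧ finrank L E ≤ n}.Finite) :
    ((powMonoidHom n : Lˣ →* Lˣ).range).FiniteIndex := by
  classical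
  have hn0 : n ≠ 0 := by rintro rfl; exact hn Nat.cast_zero
  have hnΩ : NeZero (n : Ω) := by
    refine ⟨fun h => hn ?_⟩
    apply (algebraMap L Ω).injective
    rw [map_natCast, map_zero, h]
  choose β hβ using fun a : Lˣ => IsSepClosed.exists_pow_nat_eq (algebraMap L Ω (a : L)) n
  have hβ0 : ∀ a, β a ≠ 0 := by
    intro a h
    have h1 := hβ a
    rw [h, zero_pow hn0] at h1
    exact a.ne_zero ((map_eq_zero _).1 h1.symm)
  let M : Lˣ → IntermediateField L Ω := fun a => IntermediateField.adjoin L {β a}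
  have hint : ∀ a, IsIntegral L (β a) := by
    intro a
    refine IsIntegral.of_pow (Nat.pos_of_ne_zero hn0) ?_
    rw [hβ a]
    exact isIntegral_algebraMap
  have hM : ∀ a, M a ∈ {E : IntermediateField L Ω | FiniteDimensional L E ∧ finrank L E ≤ n} := by
    intro a
    refine ⟨IntermediateField.adjoin.finiteDimensional (hint a), ?_⟩
    rw [IntermediateField.adjoin.finrank (hint a)]
    have h1 : (minpoly L (β a)).natDegree ≤
        (Polynomial.X ^ n - Polynomial.C (a : L) : Polynomial L).natDegree := by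
      refine Polynomial.natDegree_le_of_dvd (minpoly.dvd _ _ ?_)
        (Polynomial.X_pow_sub_C_ne_zero (Nat.pos_of_ne_zero hn0) _)
      rw [map_sub, map_pow, Polynomial.aeval_X, Polynomial.aeval_C, hβ a, sub_self]
    rwa [Polynomial.natDegree_X_pow_sub_C] at h1
  let H := (powMonoidHom n : Lˣ →* Lˣ).range
  let T : Set Ω := {z | z ^ n = 1}
  have hT : T.Finite := by
    refine Set.Finite.subset (Polynomial.nthRoots n (1 : Ω)).toFinset.finite_toSet ?_
    intro z hz
    rw [Finset.mem_coe, Multiset.mem_toFinset, Polynomial.mem_nthRoots (Nat.pos_of_ne_zero hn0)]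
    exact hz
  have key : ∀ E ∈ {E : IntermediateField L Ω | FiniteDimensional L E ∧ finrank L E ≤ n},
      ((fun a : Lˣ => (a : Lˣ ⧸ H)) '' {a | M a = E}).Finite := by
    rintro E ⟨hE, -⟩
    let f : Lˣ → (E →ₐ[L] Ω) → Ω := fun a σ => if h : β a ∈ E then σ ⟨β a, h⟩ / β a else 0
    have hmem : ∀ a, M a = E → β a ∈ E := by
      rintro a rfl
      exact IntermediateField.mem_adjoin_simple_self L (β a)
    have hf : (f '' {a | M a = E}).Finite := by
      have hfinAlg : Finite (E →ₐ[L] Ω) := inferInstance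
      refine Set.Finite.subset (Set.Finite.pi' fun _ : (E →ₐ[L] Ω) => hT) ?_
      rintro _ ⟨a, ha, rfl⟩ σ
      change (if h : β a ∈ E then σ ⟨β a, h⟩ / β a else 0) ^ n = 1
      rw [dif_pos (hmem a ha), div_pow, ← map_pow]
      have h1 : (⟨β a, hmem a ha⟩ : E) ^ n = algebraMap L E a := by
        apply Subtype.ext
        change β a ^ n = algebraMap L Ω a
        exact hβ a
      rw [h1, AlgHom.commutes, hβ a]
      exact div_self ((map_ne_zero _).2 a.ne_zero)
    have hinj : ∀ a a', M a = E → M a' = E → f a = f a' → (a : Lˣ ⧸ H) = (a' : Lˣ ⧸ H) := by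
      intro a a' ha ha' hff
      have h1 : β a / β a' ∈ Set.range (algebraMap L Ω) := by
        rw [InfiniteGalois.mem_range_algebraMap_iff_fixed]
        intro g
        have h2 : (if h : β a ∈ E then ((g : Ω →ₐ[L] Ω).comp E.val) ⟨β a, h⟩ / β a else 0) =
          (if h : β a' ∈ E then ((g : Ω →ₐ[L] Ω).comp E.val) ⟨β a', h⟩ / β a' else 0) :=
          congrFun hff ((g : Ω →ₐ[L] Ω).comp E.val)
        rw [dif_pos (hmem a ha), dif_pos (hmem a' ha')] at h2
        have h3 : g (β a) / β a = g (β a') / β a' := h2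
        rw [map_div₀]
        have h4 : g (β a') ≠ 0 := (map_ne_zero g).2 (hβ0 a')
        rw [div_eq_div_iff (hβ0 a) (hβ0 a')] at h3
        rw [div_eq_div_iff h4 (hβ0 a')]
        linear_combination h3
      obtain ⟨c, hc⟩ := h1
      have h2 : c ^ n = (a : L) / (a' : L) := by
        apply (algebraMap L Ω).injective
        rw [map_pow, hc, div_pow, hβ a, hβ a', map_div₀]
      have hc0 : c ≠ 0 := by
        rintro rfl
        rw [map_zero] at hc
        exact (div_ne_zero (hβ0 a) (hβ0 a')) hc.symm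
      rw [eq_comm, QuotientGroup.eq]
      refine ⟨Units.mk0 c hc0, Units.ext ?_⟩
      rw [powMonoidHom_apply, Units.val_pow_eq_pow_val, Units.val_mk0, h2, Units.val_mul,
        Units.val_inv_eq_inv_val, div_eq_inv_mul]
    let rep : ((E →ₐ[L] Ω) → Ω) → (Lˣ ⧸ H) := fun y =>
      if h : ∃ a, M a = E ∧ f a = y then (h.choose : Lˣ ⧸ H) else 1
    refine Set.Finite.subset (hf.image rep) ?_
    rintro _ ⟨a, ha, rfl⟩
    refine ⟨f a, Set.mem_image_of_mem f ha, ?_⟩
    have h : ∃ a', M a' = E ∧ f a' = f a := ⟨a, ha, rfl⟩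
    change (if h : ∃ a', M a' = E ∧ f a' = f a then (h.choose : Lˣ ⧸ H) else 1) = _
    rw [dif_pos h]
    exact hinj _ _ h.choose_spec.1 ha h.choose_spec.2
  have huniv : (Set.univ : Set (Lˣ ⧸ H)).Finite := by
    refine Set.Finite.subset (Set.Finite.biUnion hfin key) ?_
    intro x _
    rw [Set.mem_iUnion₂]
    refine ⟨M (Quotient.out x), hM _, Quotient.out x, rfl, ?_⟩
    exact QuotientGroup.out_eq' x
  have : Finite (Lˣ ⧸ H) := Set.finite_univ_iff.1 huniv
  exact Subgroup.finiteIndex_of_finite_quotient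

end

theorem finiteIndex_of_bounded {K : Type u} {L : Type v} [Field K] [Field L] [Algebra K L]
    [FiniteDimensional K L] [Algebra.IsSeparable K L] {n : ℕ} (hn : (n : L) ≠ 0)
    (hb : ∀ m : ℕ, 0 < m →
      {E : IntermediateField K (SeparableClosure K) | finrank K E = m}.Finite) :
    ((powMonoidHom n : Lˣ →* Lˣ).range).FiniteIndex := by
  let Ω := SeparableClosure K
  let φ : L →ₐ[K] Ω := IsSepClosed.lift
  let _ : Algebra L Ω := φ.toRingHom.toAlgebra
  have htower : IsScalarTower K L Ω := IsScalarTower.of_algebraMap_eq fun x => (φ.commutes x).symm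
  have hgalK : IsGalois K Ω := inferInstance
  have hgal : IsGalois L Ω := IsGalois.tower_top_of_isGalois K L Ω
  refine finiteIndex_of_finite (Ω := Ω) hn ?_
  let 𝒮 : Set (IntermediateField K Ω) := ⋃ m ∈ Finset.Icc 1 (finrank K L * n),
    {E : IntermediateField K Ω | finrank K E = m}
  have hS : 𝒮.Finite := by
    refine Set.Finite.biUnion (Finset.finite_toSet _) fun m hm => ?_
    exact hb m (Finset.mem_Icc.1 hm).1
  refine Set.Finite.of_finite_image (f := fun E : IntermediateField L Ω => E.restrictScalars K)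
    (hS.subset ?_) (Set.injOn_of_injective (IntermediateField.restrictScalars_injective K))
  rintro _ ⟨E, ⟨hE1, hE2⟩, rfl⟩
  rw [Set.mem_iUnion₂]
  refine ⟨finrank K (E.restrictScalars K), ?_, rfl⟩
  have h1 : finrank K (E.restrictScalars K) = finrank K L * finrank L E :=
    (finrank_mul_finrank K L E).symm
  rw [h1, Finset.mem_Icc]
  have h2 : 0 < finrank K L := finrank_pos
  have h3 : 0 < finrank L E := finrank_pos
  exact ⟨Nat.mul_pos h2 h3, Nat.mul_le_mul_left _ hE2⟩

end Pool.Agent.NIPFields.FI
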