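import Mathlib

set_option autoImplicit false

/-!
# Fields all of whose finite extensions are closed under power and Artin-Schreier maps
-/

namespace Pool.Agent.NIPFields.FI

open Module Polynomial

universe u

/-- All Artin-Schreier and `q`-power maps are surjective on all finite separable extensions (for
power maps: those with a primitive root of unity). -/
def Good (p : ℕ) (F : Type u) [Field F] : Prop :=
  ∀ (E : Type u) [Field E] [Algebra F E] [FiniteDimensional F E] [Algebra.IsSeparable F E],
    (∀ w : E, ∃ v : E, v ^ p - v = w) ∧ ∀ q : ℕ, q.Prime → q ≠ p →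
      (∃ ζ : E, IsPrimitiveRoot ζ q) → ∀ a : E, ∃ y, y ^ q = a

theorem Good.of_finite {p : ℕ} {F : Type u} [Field F] (h : Good p F) (M : Type u) [Field M]
    [Algebra F M] [FiniteDimensional F M] [Algebra.IsSeparable F M] : Good p M := by
  intro E _ _ _ _
  let _ : Algebra F E := ((algebraMap M E).comp (algebraMap F M)).toAlgebra
  have : IsScalarTower F M E := IsScalarTower.of_algebraMap_eq fun _ => rfl
  have : FiniteDimensional F E := FiniteDimensional.trans F M E
  have : Algebra.IsSeparable F E := Algebra.IsSeparable.trans F M E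
  exact h E

theorem no_AS {p : ℕ} [hp : Fact p.Prime] {F N : Type u} [Field F] [CharP F p] [Field N]
    [Algebra F N] [FiniteDimensional F N] [IsGalois F N]
    (hAS : ∀ w : F, ∃ v : F, v ^ p - v = w) (hd : finrank F N = p) : False := by
  have hchN : CharP N p := charP_of_injective_algebraMap (algebraMap F N).injective p
  have hcard : Nat.card (Gal(N/F)) = p := by
    rw [IsGalois.card_aut_eq_finrank, hd]
  have hcard' : Nat.card (Multiplicative (ZMod p)) = p := by
    rw [Nat.card_eq_fintype_card, Fintype.card_multiplicative, ZMod.card]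
  let χ : Gal(N/F) ≃* Multiplicative (ZMod p) := mulEquivOfPrimeCardEq hcard hcard'
  let c : ZMod p →+* N := ZMod.castHom (dvd_refl p) N
  let ψ : Gal(N/F) → N := fun τ => c (Multiplicative.toAdd (χ τ))
  have hψmul : ∀ σ τ, ψ (σ * τ) = ψ σ + ψ τ := by
    intro σ τ
    change c (Multiplicative.toAdd (χ (σ * τ))) = _
    rw [map_mul, toAdd_mul, map_add]
  have hfix : ∀ (σ : Gal(N/F)) (z : ZMod p), σ (c z) = c z := by
    intro σ z
    have : ((σ : N →+* N).comp c) = c := Subsingleton.elim _ _
    exact congrArg (fun f : ZMod p →+* N => f z) this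
  obtain ⟨w, hw⟩ := Algebra.trace_surjective F N 1
  have htr : ∑ τ : Gal(N/F), τ w = 1 := by
    have := trace_eq_sum_automorphisms (K := F) (L := N) w
    rw [hw, map_one] at this
    exact this.symm
  let S : N := ∑ τ : Gal(N/F), ψ τ * τ w
  have hS : ∀ σ : Gal(N/F), σ S = S - ψ σ := by
    intro σ
    have h1 : σ S = ∑ τ : Gal(N/F), ψ τ * (σ * τ) w := by
      change σ (∑ τ : Gal(N/F), ψ τ * τ w) = _
      rw [map_sum]
      refine Finset.sum_congr rfl fun τ _ => ?_
      rw [map_mul]
      congr 1
      exact hfix σ _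
    have h2 : ∑ τ : Gal(N/F), ψ τ * (σ * τ) w = ∑ τ : Gal(N/F), (ψ τ - ψ σ) * τ w := by
      refine Fintype.sum_equiv (Equiv.mulLeft σ) _ _ fun τ => ?_
      rw [Equiv.coe_mulLeft, hψmul, add_sub_cancel_left]
    rw [h1, h2]
    simp only [sub_mul, Finset.sum_sub_distrib]
    rw [← Finset.mul_sum, htr, mul_one]
  have hfixa : S ^ p - S ∈ Set.range (algebraMap F N) := by
    rw [IsGalois.mem_range_algebraMap_iff_fixed]
    intro σ
    rw [map_sub, map_pow, hS, sub_pow_char]
    have h3 : ψ σ ^ p = ψ σ := by
      change c _ ^ p = c _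
      rw [← map_pow, ZMod.pow_card]
    rw [h3]
    ring
  obtain ⟨a, ha⟩ := hfixa
  obtain ⟨b, hb⟩ := hAS a
  have h4 : (S - algebraMap F N b) ^ p = S - algebraMap F N b := by
    rw [sub_pow_char, ← map_pow]
    have h5 : algebraMap F N (b ^ p) = algebraMap F N a + algebraMap F N b := by
      rw [← map_add, ← hb]
      congr 1
      ring
    rw [h5, ha]
    ring
  have h5 : S - algebraMap F N b ∈ (⊥ : Subfield N) := (Subfield.mem_bot_iff_pow_eq_self N p).2 h4
  have h6 : ∀ σ : Gal(N/F), ψ σ = 0 := by
    intro σ
    have h7 : (⊥ : Subfield N) ≤ (RingHom.fieldRange (algebraMap F N)) := bot_le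
    obtain ⟨d, hd⟩ := h7 h5
    have h8 : S = algebraMap F N (d + b) := by
      rw [map_add, hd]; ring
    have h9 := hS σ
    rw [h8, AlgEquiv.commutes] at h9
    linear_combination h9
  have h7 := h6 (χ.symm (Multiplicative.ofAdd 1))
  change c (Multiplicative.toAdd (χ (χ.symm (Multiplicative.ofAdd 1)))) = 0 at h7
  rw [MulEquiv.apply_symm_apply, toAdd_ofAdd, map_one] at h7
  exact one_ne_zero h7

theorem no_Kummer {q : ℕ} (hq : q.Prime) {F N : Type u} [Field F] [Field N]
    [Algebra F N] [FiniteDimensional F N] [IsGalois F N]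
    (hsurj : ∀ w : F, ∃ v : F, v ^ q = w) {ζ : F} (hζ : IsPrimitiveRoot ζ q)
    (hd : finrank F N = q) : False := by
  have _ : Fact q.Prime := ⟨hq⟩
  have hcard : Nat.card (Gal(N/F)) = q := by
    rw [IsGalois.card_aut_eq_finrank, hd]
  have hcyc : IsCyclic (Gal(N/F)) := isCyclic_of_prime_card hcard
  obtain ⟨α, ⟨a, ha⟩, hα⟩ := exists_root_adjoin_eq_top_of_isCyclic F N
    ⟨ζ, by rw [hd, mem_primitiveRoots hq.pos]; exact hζ⟩
  rw [hd] at ha
  obtain ⟨b, hb⟩ := hsurj a
  have hmem : α ∈ Set.range (algebraMap F N) := by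
    by_cases hb0 : b = 0
    · have : α = 0 := by
        have h1 : α ^ q = 0 := by
          rw [← ha, ← hb, hb0, zero_pow hq.ne_zero, map_zero]
        exact pow_eq_zero_iff hq.ne_zero |>.1 h1
      exact ⟨0, by rw [this, map_zero]⟩
    · have hb0' : algebraMap F N b ≠ 0 := (_root_.map_ne_zero _).2 hb0
      have hζN : IsPrimitiveRoot (algebraMap F N ζ) q :=
        hζ.map_of_injective (algebraMap F N).injective
      obtain ⟨i, _, hi⟩ := hζN.eq_pow_of_pow_eq_one (ξ := α / algebraMap F N b) (by
        rw [div_pow, ← ha, ← hb, map_pow]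
        exact div_self (pow_ne_zero _ hb0'))
      refine ⟨ζ ^ i * b, ?_⟩
      rw [map_mul, map_pow, hi, div_mul_cancel₀ _ hb0']
  have h1 : IntermediateField.adjoin F {α} = ⊥ := by
    rw [IntermediateField.adjoin_simple_eq_bot_iff]
    obtain ⟨x, hx⟩ := hmem
    exact IntermediateField.mem_bot.2 ⟨x, hx⟩
  rw [h1] at hα
  have h2 : finrank F N = 1 := by
    rw [← IntermediateField.finrank_top', ← hα, IntermediateField.finrank_bot]
  rw [hd] at h2
  exact hq.one_lt.ne' h2

/-- A cyclic piece of prime degree at the top of a Galois extension. -/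
theorem exists_sub {p : ℕ} {F N : Type u} [Field F] [Field N] [Algebra F N]
    [FiniteDimensional F N] [IsGalois F N] (hF : Good p F) {r : ℕ} (hr : r.Prime)
    (hrd : r ∣ finrank F N) :
    ∃ M : IntermediateField F N, Good p M ∧ finrank M N = r := by
  have _ : Fact r.Prime := ⟨hr⟩
  rw [← IsGalois.card_aut_eq_finrank] at hrd
  obtain ⟨σ, hσ⟩ := exists_prime_orderOf_dvd_card' r hrd
  refine ⟨IntermediateField.fixedField (Subgroup.zpowers σ), hF.of_finite _, ?_⟩
  rw [IntermediateField.finrank_fixedField_eq_card, Nat.card_zpowers, hσ]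

theorem no_cyclic {p : ℕ} [hp : Fact p.Prime] (q : ℕ) :
    ∀ (F N : Type u) [Field F] [CharP F p] [Field N] [Algebra F N] [FiniteDimensional F N]
      [IsGalois F N], q.Prime → Good p F → finrank F N = q → False := by
  induction q using Nat.strong_induction_on with
  | _ q ih =>
  intro F N _ _ _ _ _ _ hq hF hd
  by_cases hqp : q = p
  · subst hqp
    exact no_AS (hF F).1 hd
  · have hne : NeZero ((q : ℕ) : F) := by
      refine ⟨fun h => ?_⟩
      rw [CharP.cast_eq_zero_iff F p] at h
      exact hqp ((Nat.prime_dvd_prime_iff_eq hp.out hq).1 h).symm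
    have hq0 : NeZero q := ⟨hq.ne_zero⟩
    by_cases hroot : ∃ ζ : F, IsPrimitiveRoot ζ q
    · obtain ⟨ζ, hζ⟩ := hroot
      exact no_Kummer hq ((hF F).2 q hq hqp ⟨ζ, hζ⟩) hζ hd
    · let C := CyclotomicField q F
      have hgal : IsGalois F C := IsCyclotomicExtension.isGalois {q} F C
      have hfd : FiniteDimensional F C := IsCyclotomicExtension.finiteDimensional {q} F C
      have hneC : NeZero ((q : ℕ) : C) := NeZero.nat_of_injective (algebraMap F C).injective
      have hζ := IsCyclotomicExtension.zeta_spec q F C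
      have hne1 : finrank F C ≠ 1 := by
        intro h1
        apply hroot
        have h2 : (⊥ : IntermediateField F C) = ⊤ :=
          (IntermediateField.bot_eq_top_iff_finrank_eq_one).2 h1
        have h3 : IsCyclotomicExtension.zeta q F C ∈ (⊥ : IntermediateField F C) := by
          rw [h2]; exact IntermediateField.mem_top
        obtain ⟨z, hz⟩ := IntermediateField.mem_bot.1 h3
        refine ⟨z, ?_⟩
        rw [← hz] at hζ
        exact IsPrimitiveRoot.of_map_of_injective hζ (algebraMap F C).injective
      obtain ⟨r, hr, hrd⟩ := Nat.exists_prime_and_dvd hne1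
      have hlt : r < q := by
        have h1 : finrank F C ≤ q - 1 := by
          have h3 : finrank F C = (minpoly F (IsCyclotomicExtension.zeta q F C)).natDegree := by
            rw [(hζ.powerBasis F).finrank, IsPrimitiveRoot.powerBasis_dim]
          rw [h3, ← Nat.totient_prime hq, ← natDegree_cyclotomic q F]
          refine natDegree_le_of_dvd (minpoly.dvd _ _ ?_) (cyclotomic_ne_zero q F)
          rw [aeval_def, ← eval_map, map_cyclotomic]
          exact hζ.isRoot_cyclotomic hq.pos
        have h2 := Nat.le_of_dvd finrank_pos hrd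
        have h3 := hq.one_lt
        omega
      obtain ⟨M, hM, hMd⟩ := exists_sub (N := C) hF hr hrd
      have _ : CharP M p := charP_of_injective_algebraMap (algebraMap F M).injective p
      exact ih r hlt M C hr hM hMd

/-- Such a field is separably closed. -/
theorem Good.isSepClosed {p : ℕ} [hp : Fact p.Prime] {K : Type u} [Field K] [CharP K p]
    (hK : Good p K) : IsSepClosed K := by
  refine IsSepClosed.of_exists_root _ fun f _ hirr hsep => ?_
  have hgal : IsGalois K f.SplittingField := IsGalois.of_separable_splitting_field hsep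
  by_cases h1 : finrank K f.SplittingField = 1
  · have h2 : (⊥ : IntermediateField K f.SplittingField) = ⊤ :=
      (IntermediateField.bot_eq_top_iff_finrank_eq_one).2 h1
    obtain ⟨x, hx⟩ := (SplittingField.splits f).exists_eval_eq_zero (by
      rw [degree_map]; exact (degree_pos_of_irreducible hirr).ne')
    have h3 : x ∈ (⊥ : IntermediateField K f.SplittingField) := by
      rw [h2]; exact IntermediateField.mem_top
    obtain ⟨z, hz⟩ := IntermediateField.mem_bot.1 h3
    refine ⟨z, ?_⟩
    apply (algebraMap K f.SplittingField).injective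
    rw [map_zero, ← hx, ← hz, eval_map, eval₂_at_apply]
  · exfalso
    obtain ⟨r, hr, hrd⟩ := Nat.exists_prime_and_dvd h1
    obtain ⟨M, hM, hMd⟩ := exists_sub (N := f.SplittingField) hK hr hrd
    have _ : CharP M p := charP_of_injective_algebraMap (algebraMap K M).injective p
    exact no_cyclic r M f.SplittingField hr hM hMd

end Pool.Agent.NIPFields.FI
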