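import Mathlib
import Pool.Agent.NIPFields.FI.Main
import Pool.Agent.NIPFields.FI.Galois
import Pool.Agent.NIPFields.FI.Bounded

set_option autoImplicit false

/-!
# The finite index theorem, global form
-/

namespace Pool.Agent.NIPFields.FI

open FirstOrder FirstOrder.Language FirstOrder.Ring Set Filter IsLocalRing Module

universe u v

theorem NIP.isSepClosed_or {K : Type u} [Field K] [CompatibleRing K] (hK : NIP K) (p : ℕ)
    [hp : Fact p.Prime] [CharP K p] [Infinite K] :
    IsSepClosed K ∨ ∃ (L : Type u) (_ : Field L) (_ : Algebra K L) (q : ℕ),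
      FiniteDimensional K L ∧ Algebra.IsSeparable K L ∧ q.Prime ∧ q ≠ p ∧
        ∃ a : L, ∀ y, a ≠ y ^ q := by
  by_contra hcon
  push Not at hcon
  obtain ⟨h1, h2⟩ := hcon
  apply h1
  refine Good.isSepClosed (p := p) ?_
  intro E _ _ _ _
  have _ : CharP E p := charP_of_injective_algebraMap (algebraMap K E).injective p
  have _ : Infinite E := Infinite.of_injective _ (algebraMap K E).injective
  refine ⟨fun w => ?_, fun q hq hqp _ a => ?_⟩
  · exact hK.artinSchreier (Module.finBasis K E) w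
  · obtain ⟨y, hy⟩ := h2 E inferInstance inferInstance q inferInstance inferInstance hq hqp a
    exact ⟨y, hy.symm⟩

/-- The global form. -/
theorem shelah_dichotomy {K : Type u} [Field K] [CompatibleRing K] (hK : NIP K) (p : ℕ)
    [hp : Fact p.Prime] [CharP K p] :
    (Finite K ∨ IsSepClosed K ∨ ∃ O : ValuationSubring K, O ≠ ⊤ ∧ HenselianLocalRing O ∧
      (univ : Set K).Definable₁ Language.ring {x | x ∈ O}) ∨
    ((∀ (L : Type u) [Field L] [Algebra K L] [FiniteDimensional K L] (ℓ : ℕ), ¬ p ∣ ℓ →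
        (∀ a : L, ∃ y, y ^ ℓ = a) ∨ ¬ ((powMonoidHom ℓ : Lˣ →* Lˣ).range).FiniteIndex) ∧
      (∃ (L : Type u) (_ : Field L) (_ : Algebra K L) (ℓ : ℕ),
        FiniteDimensional K L ∧ Algebra.IsSeparable K L ∧ ℓ.Prime ∧ ℓ ≠ p ∧
          ¬ ((powMonoidHom ℓ : Lˣ →* Lˣ).range).FiniteIndex) ∧
      ∃ n : ℕ, 0 < n ∧
        {E : IntermediateField K (SeparableClosure K) | finrank K E = n}.Infinite) := by
  by_cases h0 : Finite K ∨ IsSepClosed K ∨ ∃ O : ValuationSubring K, O ≠ ⊤ ∧
      HenselianLocalRing O ∧ (univ : Set K).Definable₁ Language.ring {x | x ∈ O}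
  · exact Or.inl h0
  right
  rw [not_or, not_or] at h0
  obtain ⟨h1, h2, h3⟩ := h0
  have _ : Infinite K := not_finite_iff_infinite.1 h1
  have key : ∀ (L : Type u) [Field L] [Algebra K L] [FiniteDimensional K L] (ℓ : ℕ), ¬ p ∣ ℓ →
      (∀ a : L, ∃ y, y ^ ℓ = a) ∨ ¬ ((powMonoidHom ℓ : Lˣ →* Lˣ).range).FiniteIndex := by
    intro L _ _ _ ℓ hℓ
    by_contra hcon
    push Not at hcon
    obtain ⟨⟨a, ha⟩, hfin⟩ := hcon
    exact h3 (shelah_of_finiteIndex hK p (L := L) hℓ hfin ⟨a, fun y => (ha y).symm⟩)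
  obtain ⟨L, fL, aL, q, hfd, hsep, hq, hqp, a, ha⟩ := (NIP.isSepClosed_or hK p).resolve_left h2
  have hpq : ¬ p ∣ q := fun h => hqp ((Nat.prime_dvd_prime_iff_eq hp.out hq).1 h).symm
  have hinf : ¬ ((powMonoidHom q : Lˣ →* Lˣ).range).FiniteIndex := by
    rcases key L q hpq with h | h
    · obtain ⟨y, hy⟩ := h a
      exact absurd hy.symm (ha y)
    · exact h
  refine ⟨key, ⟨L, fL, aL, q, hfd, hsep, hq, hqp, hinf⟩, ?_⟩
  by_contra hcon
  push Not at hcon
  apply hinf
  have hchL : CharP L p := charP_of_injective_algebraMap (algebraMap K L).injective p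
  refine finiteIndex_of_bounded (K := K) (fun h => hpq ((CharP.cast_eq_zero_iff L p q).1 h))
    fun m hm => ?_
  exact hcon m hm

end Pool.Agent.NIPFields.FI
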